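import Mathlib
import Pool.Agent.Lib_helper59.KE.Defs

/-!
# Five levels: the numerical inequality (20 cells, certificates found by a linear program)
-/

set_option autoImplicit false
set_option linter.unusedVariables false

namespace Pool.Agent.KE


/-- cell y:0 pq:0 xz:0 ; residual 2.55e-15 -/
theorem na_00 (x y z p q Hxy Hxz Hxp Hxq : ℝ)
    (h1 : 0 ≤ x - y)
    (h2 : 0 ≤ y - z)
    (h3 : 0 ≤ z - p)
    (h4 : 0 ≤ p - q)
    (h5 : 0 ≤ q)
    (hM : 0 ≤ 19 / 50 * (x + y + z + p + q) - x)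
    (kyz : 0 ≤ 2 * z - y)
    (kyp : 0 ≤ 2 * p - y)
    (kyq : 0 ≤ 2 * q - y)
    (kpq : 0 ≤ 2 * q - p)
    (fxy0 : 0 ≤ Hxy)
    (fxy1 : 2 * x * y - 3 * y ^ 2 ≤ Hxy)
    (fxyh : y * (x - y) - y ^ 2 / 4 ≤ Hxy)
    (fxz0 : 0 ≤ Hxz)
    (fxz1 : 2 * x * z - 3 * z ^ 2 ≤ Hxz)
    (fxzh : z * (x - z) - z ^ 2 / 4 ≤ Hxz)
    (fxzt : (y - z) ^ 2 + 2 * (y - z) * (x - y) ≤ Hxz)
    (fxp0 : 0 ≤ Hxp)
    (fxp1 : 2 * x * p - 3 * p ^ 2 ≤ Hxp)
    (fxph : p * (x - p) - p ^ 2 / 4 ≤ Hxp)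
    (fxpt : (y - p) ^ 2 + 2 * (y - p) * (x - y) ≤ Hxp)
    (fxq0 : 0 ≤ Hxq)
    (fxq1 : 2 * x * q - 3 * q ^ 2 ≤ Hxq)
    (fxqh : q * (x - q) - q ^ 2 / 4 ≤ Hxq)
    (fxqt : (y - q) ^ 2 + 2 * (y - q) * (x - y) ≤ Hxq)
    : 111 / 200 * (x + y + z + p + q) ^ 2 ≤ 12 / 5 * y ^ 2 + 18 / 5 * z ^ 2 + 6 * p ^ 2 + 6 * q ^ 2
      + 3 * (Hxy + Hxz + Hxp + Hxq) - 9 / 5 * ((y - z) ^ 2 + (y - p) ^ 2 + (y - q) ^ 2)
      + 9 / 5 * ((z - p) ^ 2 + (z - q) ^ 2) - 3 * (p - q) ^ 2 := by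
  linarith [sq_nonneg (x + y + z + p + q),
    mul_nonneg h1 h2,
    mul_nonneg h1 h5,
    mul_nonneg h1 hM,
    mul_nonneg h2 kyp,
    mul_nonneg h2 kyq,
    mul_nonneg h3 h4,
    mul_nonneg h3 kyz,
    mul_nonneg h4 h5,
    mul_nonneg hM kyq,
    sq_nonneg (p - 3 / 4 * z)]

/-- cell y:1 pq:0 xz:0 ; residual 3.62e-15 -/
theorem na_10 (x y z p q Hxy Hxz Hxp Hzq : ℝ)
    (h1 : 0 ≤ x - y)
    (h2 : 0 ≤ y - z)
    (h3 : 0 ≤ z - p)
    (h4 : 0 ≤ p - q)
    (h5 : 0 ≤ q)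
    (hM : 0 ≤ 19 / 50 * (x + y + z + p + q) - x)
    (kyz : 0 ≤ 2 * z - y)
    (kyp : 0 ≤ 2 * p - y)
    (kyq : 0 ≤ y - 2 * q)
    (kpq : 0 ≤ 2 * q - p)
    (fxy0 : 0 ≤ Hxy)
    (fxy1 : 2 * x * y - 3 * y ^ 2 ≤ Hxy)
    (fxyh : y * (x - y) - y ^ 2 / 4 ≤ Hxy)
    (fxz0 : 0 ≤ Hxz)
    (fxz1 : 2 * x * z - 3 * z ^ 2 ≤ Hxz)
    (fxzh : z * (x - z) - z ^ 2 / 4 ≤ Hxz)
    (fxzt : (y - z) ^ 2 + 2 * (y - z) * (x - y) ≤ Hxz)
    (fxp0 : 0 ≤ Hxp)
    (fxp1 : 2 * x * p - 3 * p ^ 2 ≤ Hxp)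
    (fxph : p * (x - p) - p ^ 2 / 4 ≤ Hxp)
    (fxpt : (y - p) ^ 2 + 2 * (y - p) * (x - y) ≤ Hxp)
    (fzq0 : 0 ≤ Hzq)
    (fzq1 : 2 * z * q - 3 * q ^ 2 ≤ Hzq)
    (fzqh : q * (z - q) - q ^ 2 / 4 ≤ Hzq)
    : 111 / 200 * (x + y + z + p + q) ^ 2 ≤ 12 / 5 * y ^ 2 + 18 / 5 * z ^ 2 + 6 * p ^ 2 + 6 * q ^ 2
      + 3 * (Hxy + Hxz + Hxp + (2 * x * q - 3 * q ^ 2)) - 9 / 5 * ((y - z) ^ 2 + (y - p) ^ 2 + (2 * y * q - 3 * q ^ 2))
      + 9 / 5 * ((z - p) ^ 2 + Hzq) - 3 * (p - q) ^ 2 := by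
  linarith [sq_nonneg (x + y + z + p + q),
    mul_nonneg h1 h2,
    mul_nonneg h1 hM,
    mul_nonneg h1 kyz,
    mul_nonneg h1 kpq,
    mul_nonneg h3 h3,
    mul_nonneg h4 kpq,
    mul_nonneg hM kyp,
    mul_nonneg kyz kpq,
    mul_nonneg kyp kyp,
    mul_nonneg kyp kyq,
    sq_nonneg (y - 3 / 2 * x),
    sq_nonneg (q - 1 / 5 * x),
    sq_nonneg (z - 2 / 5 * y)]

/-- cell y:1 pq:1 xz:0 ; residual 4.02e-15 -/
theorem na_11 (x y z p q Hxy Hxz Hxp Hzq : ℝ)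
    (h1 : 0 ≤ x - y)
    (h2 : 0 ≤ y - z)
    (h3 : 0 ≤ z - p)
    (h4 : 0 ≤ p - q)
    (h5 : 0 ≤ q)
    (hM : 0 ≤ 19 / 50 * (x + y + z + p + q) - x)
    (kyz : 0 ≤ 2 * z - y)
    (kyp : 0 ≤ 2 * p - y)
    (kyq : 0 ≤ y - 2 * q)
    (kpq : 0 ≤ p - 2 * q)
    (fxy0 : 0 ≤ Hxy)
    (fxy1 : 2 * x * y - 3 * y ^ 2 ≤ Hxy)
    (fxyh : y * (x - y) - y ^ 2 / 4 ≤ Hxy)
    (fxz0 : 0 ≤ Hxz)
    (fxz1 : 2 * x * z - 3 * z ^ 2 ≤ Hxz)
    (fxzh : z * (x - z) - z ^ 2 / 4 ≤ Hxz)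
    (fxzt : (y - z) ^ 2 + 2 * (y - z) * (x - y) ≤ Hxz)
    (fxp0 : 0 ≤ Hxp)
    (fxp1 : 2 * x * p - 3 * p ^ 2 ≤ Hxp)
    (fxph : p * (x - p) - p ^ 2 / 4 ≤ Hxp)
    (fxpt : (y - p) ^ 2 + 2 * (y - p) * (x - y) ≤ Hxp)
    (fzq0 : 0 ≤ Hzq)
    (fzq1 : 2 * z * q - 3 * q ^ 2 ≤ Hzq)
    (fzqh : q * (z - q) - q ^ 2 / 4 ≤ Hzq)
    : 111 / 200 * (x + y + z + p + q) ^ 2 ≤ 12 / 5 * y ^ 2 + 18 / 5 * z ^ 2 + 6 * p ^ 2 + 6 * q ^ 2
      + 3 * (Hxy + Hxz + Hxp + (2 * x * q - 3 * q ^ 2)) - 9 / 5 * ((y - z) ^ 2 + (y - p) ^ 2 + (2 * y * q - 3 * q ^ 2))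
      + 9 / 5 * ((z - p) ^ 2 + Hzq) - 3 * (2 * p * q - 3 * q ^ 2) := by
  linarith [sq_nonneg (x + y + z + p + q),
    mul_nonneg h1 h2,
    mul_nonneg h1 h4,
    mul_nonneg h1 h5,
    mul_nonneg h1 hM,
    mul_nonneg h2 kyp,
    mul_nonneg h3 h5,
    mul_nonneg h3 kyz,
    mul_nonneg kyp kyq,
    mul_nonneg kyq kpq,
    sq_nonneg (p - 3 / 4 * z),
    sq_nonneg (p - 3 / 2 * z),
    sq_nonneg (q - 1 / 3 * p)]

/-- cell y:2 pq:0 xz:0 ; residual 2.57e-15 -/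
theorem na_20 (x y z p q Hxy Hxz Hzp Hzq : ℝ)
    (h1 : 0 ≤ x - y)
    (h2 : 0 ≤ y - z)
    (h3 : 0 ≤ z - p)
    (h4 : 0 ≤ p - q)
    (h5 : 0 ≤ q)
    (hM : 0 ≤ 19 / 50 * (x + y + z + p + q) - x)
    (kyz : 0 ≤ 2 * z - y)
    (kyp : 0 ≤ y - 2 * p)
    (kyq : 0 ≤ y - 2 * q)
    (kpq : 0 ≤ 2 * q - p)
    (fxy0 : 0 ≤ Hxy)
    (fxy1 : 2 * x * y - 3 * y ^ 2 ≤ Hxy)
    (fxyh : y * (x - y) - y ^ 2 / 4 ≤ Hxy)
    (fxz0 : 0 ≤ Hxz)
    (fxz1 : 2 * x * z - 3 * z ^ 2 ≤ Hxz)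
    (fxzh : z * (x - z) - z ^ 2 / 4 ≤ Hxz)
    (fxzt : (y - z) ^ 2 + 2 * (y - z) * (x - y) ≤ Hxz)
    (fzp0 : 0 ≤ Hzp)
    (fzp1 : 2 * z * p - 3 * p ^ 2 ≤ Hzp)
    (fzph : p * (z - p) - p ^ 2 / 4 ≤ Hzp)
    (fzq0 : 0 ≤ Hzq)
    (fzq1 : 2 * z * q - 3 * q ^ 2 ≤ Hzq)
    (fzqh : q * (z - q) - q ^ 2 / 4 ≤ Hzq)
    : 111 / 200 * (x + y + z + p + q) ^ 2 ≤ 12 / 5 * y ^ 2 + 18 / 5 * z ^ 2 + 6 * p ^ 2 + 6 * q ^ 2
      + 3 * (Hxy + Hxz + (2 * x * p - 3 * p ^ 2) + (2 * x * q - 3 * q ^ 2)) - 9 / 5 * ((y - z) ^ 2 + (2 * y * p - 3 * p ^ 2) + (2 * y * q - 3 * q ^ 2))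
      + 9 / 5 * (Hzp + Hzq) - 3 * (p - q) ^ 2 := by
  linarith [sq_nonneg (x + y + z + p + q),
    mul_nonneg h1 h4,
    mul_nonneg h1 h5,
    mul_nonneg h1 hM,
    mul_nonneg h2 kyz,
    mul_nonneg h2 kpq,
    mul_nonneg h3 hM,
    mul_nonneg h3 kyp,
    mul_nonneg h3 kpq,
    mul_nonneg h4 kpq,
    sq_nonneg (q - 1 / 5 * y),
    sq_nonneg (y - 3 / 10 * (x + y + z + p + q))]

/-- cell y:2 pq:1 xz:0 ; residual 3.62e-15 -/
theorem na_21 (x y z p q Hxy Hxz Hzp Hzq : ℝ)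
    (h1 : 0 ≤ x - y)
    (h2 : 0 ≤ y - z)
    (h3 : 0 ≤ z - p)
    (h4 : 0 ≤ p - q)
    (h5 : 0 ≤ q)
    (hM : 0 ≤ 19 / 50 * (x + y + z + p + q) - x)
    (kyz : 0 ≤ 2 * z - y)
    (kyp : 0 ≤ y - 2 * p)
    (kyq : 0 ≤ y - 2 * q)
    (kpq : 0 ≤ p - 2 * q)
    (fxy0 : 0 ≤ Hxy)
    (fxy1 : 2 * x * y - 3 * y ^ 2 ≤ Hxy)
    (fxyh : y * (x - y) - y ^ 2 / 4 ≤ Hxy)
    (fxz0 : 0 ≤ Hxz)
    (fxz1 : 2 * x * z - 3 * z ^ 2 ≤ Hxz)
    (fxzh : z * (x - z) - z ^ 2 / 4 ≤ Hxz)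
    (fxzt : (y - z) ^ 2 + 2 * (y - z) * (x - y) ≤ Hxz)
    (fzp0 : 0 ≤ Hzp)
    (fzp1 : 2 * z * p - 3 * p ^ 2 ≤ Hzp)
    (fzph : p * (z - p) - p ^ 2 / 4 ≤ Hzp)
    (fzq0 : 0 ≤ Hzq)
    (fzq1 : 2 * z * q - 3 * q ^ 2 ≤ Hzq)
    (fzqh : q * (z - q) - q ^ 2 / 4 ≤ Hzq)
    : 111 / 200 * (x + y + z + p + q) ^ 2 ≤ 12 / 5 * y ^ 2 + 18 / 5 * z ^ 2 + 6 * p ^ 2 + 6 * q ^ 2
      + 3 * (Hxy + Hxz + (2 * x * p - 3 * p ^ 2) + (2 * x * q - 3 * q ^ 2)) - 9 / 5 * ((y - z) ^ 2 + (2 * y * p - 3 * p ^ 2) + (2 * y * q - 3 * q ^ 2))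
      + 9 / 5 * (Hzp + Hzq) - 3 * (2 * p * q - 3 * q ^ 2) := by
  linarith [sq_nonneg (x + y + z + p + q),
    mul_nonneg h1 h2,
    mul_nonneg h1 h4,
    mul_nonneg h1 h5,
    mul_nonneg h1 hM,
    mul_nonneg h2 kpq,
    mul_nonneg h5 kyp,
    mul_nonneg hM kyz,
    mul_nonneg hM kyp,
    mul_nonneg kyp kyp,
    mul_nonneg kyq kpq,
    sq_nonneg (q - 1 / 3 * p)]

/-- cell y:3 pq:0 xz:0 ; residual 3.73e-15 -/
theorem na_30 (x y z p q Hxy Hzp Hzq : ℝ)
    (h1 : 0 ≤ x - y)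
    (h2 : 0 ≤ y - z)
    (h3 : 0 ≤ z - p)
    (h4 : 0 ≤ p - q)
    (h5 : 0 ≤ q)
    (hM : 0 ≤ 19 / 50 * (x + y + z + p + q) - x)
    (kyz : 0 ≤ y - 2 * z)
    (kyp : 0 ≤ y - 2 * p)
    (kyq : 0 ≤ y - 2 * q)
    (kpq : 0 ≤ 2 * q - p)
    (fxy0 : 0 ≤ Hxy)
    (fxy1 : 2 * x * y - 3 * y ^ 2 ≤ Hxy)
    (fxyh : y * (x - y) - y ^ 2 / 4 ≤ Hxy)
    (fzp0 : 0 ≤ Hzp)
    (fzp1 : 2 * z * p - 3 * p ^ 2 ≤ Hzp)
    (fzph : p * (z - p) - p ^ 2 / 4 ≤ Hzp)
    (fzq0 : 0 ≤ Hzq)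
    (fzq1 : 2 * z * q - 3 * q ^ 2 ≤ Hzq)
    (fzqh : q * (z - q) - q ^ 2 / 4 ≤ Hzq)
    : 111 / 200 * (x + y + z + p + q) ^ 2 ≤ 12 / 5 * y ^ 2 + 18 / 5 * z ^ 2 + 6 * p ^ 2 + 6 * q ^ 2
      + 3 * (Hxy + (2 * x * z - 3 * z ^ 2) + (2 * x * p - 3 * p ^ 2) + (2 * x * q - 3 * q ^ 2)) - 9 / 5 * ((2 * y * z - 3 * z ^ 2) + (2 * y * p - 3 * p ^ 2) + (2 * y * q - 3 * q ^ 2))
      + 9 / 5 * (Hzp + Hzq) - 3 * (p - q) ^ 2 := by
  linarith [sq_nonneg (x + y + z + p + q),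
    mul_nonneg h1 h3,
    mul_nonneg h1 h4,
    mul_nonneg h1 h5,
    mul_nonneg h1 hM,
    mul_nonneg h2 kyz,
    mul_nonneg h2 kpq,
    mul_nonneg h4 kpq,
    mul_nonneg hM kyz,
    mul_nonneg hM kyp,
    mul_nonneg kyz kyq,
    sq_nonneg (p - 3 / 4 * y),
    sq_nonneg (y - 3 / 10 * (x + y + z + p + q)),
    sq_nonneg (y - 2 / 5 * (x + y + z + p + q)),
    sq_nonneg (p - 3 / 4 * z)]

/-- cell y:3 pq:1 xz:0 ; residual 4.74e-15 -/
theorem na_31 (x y z p q Hxy Hzp Hzq : ℝ)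
    (h1 : 0 ≤ x - y)
    (h2 : 0 ≤ y - z)
    (h3 : 0 ≤ z - p)
    (h4 : 0 ≤ p - q)
    (h5 : 0 ≤ q)
    (hM : 0 ≤ 19 / 50 * (x + y + z + p + q) - x)
    (kyz : 0 ≤ y - 2 * z)
    (kyp : 0 ≤ y - 2 * p)
    (kyq : 0 ≤ y - 2 * q)
    (kpq : 0 ≤ p - 2 * q)
    (fxy0 : 0 ≤ Hxy)
    (fxy1 : 2 * x * y - 3 * y ^ 2 ≤ Hxy)
    (fxyh : y * (x - y) - y ^ 2 / 4 ≤ Hxy)
    (fzp0 : 0 ≤ Hzp)
    (fzp1 : 2 * z * p - 3 * p ^ 2 ≤ Hzp)
    (fzph : p * (z - p) - p ^ 2 / 4 ≤ Hzp)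
    (fzq0 : 0 ≤ Hzq)
    (fzq1 : 2 * z * q - 3 * q ^ 2 ≤ Hzq)
    (fzqh : q * (z - q) - q ^ 2 / 4 ≤ Hzq)
    : 111 / 200 * (x + y + z + p + q) ^ 2 ≤ 12 / 5 * y ^ 2 + 18 / 5 * z ^ 2 + 6 * p ^ 2 + 6 * q ^ 2
      + 3 * (Hxy + (2 * x * z - 3 * z ^ 2) + (2 * x * p - 3 * p ^ 2) + (2 * x * q - 3 * q ^ 2)) - 9 / 5 * ((2 * y * z - 3 * z ^ 2) + (2 * y * p - 3 * p ^ 2) + (2 * y * q - 3 * q ^ 2))
      + 9 / 5 * (Hzp + Hzq) - 3 * (2 * p * q - 3 * q ^ 2) := by
  linarith [sq_nonneg (x + y + z + p + q),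
    mul_nonneg h1 h2,
    mul_nonneg h1 h4,
    mul_nonneg h1 h5,
    mul_nonneg h1 hM,
    mul_nonneg h2 kpq,
    mul_nonneg h3 h5,
    mul_nonneg hM kyz,
    mul_nonneg hM kyp,
    mul_nonneg hM kpq,
    mul_nonneg kyz kyz,
    mul_nonneg kyz kyp,
    mul_nonneg kyp kyp,
    sq_nonneg (y - 7 / 20 * (x + y + z + p + q)),
    sq_nonneg (z - 9 / 20 * (x + y + z + p + q)),
    sq_nonneg (q - 1 / 3 * p)]

/-- cell y:0 pq:0 xz:0 ; residual 4.11e-15 -/
theorem nb_00 (x y z p q Hxy Hxz Hxp Hxq : ℝ)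
    (h1 : 0 ≤ x - y)
    (h2 : 0 ≤ y - z)
    (h3 : 0 ≤ z - p)
    (h4 : 0 ≤ p - q)
    (h5 : 0 ≤ q)
    (hM : 0 ≤ 470 / 1000 * (x + y + z + p + q) - x)
    (hL : 0 ≤ x - 19 / 50 * (x + y + z + p + q))
    (kyz : 0 ≤ 2 * z - y)
    (kyp : 0 ≤ 2 * p - y)
    (kyq : 0 ≤ 2 * q - y)
    (kpq : 0 ≤ 2 * q - p)
    (fxy0 : 0 ≤ Hxy)
    (fxy1 : 2 * x * y - 3 * y ^ 2 ≤ Hxy)
    (fxyh : y * (x - y) - y ^ 2 / 4 ≤ Hxy)
    (fxz0 : 0 ≤ Hxz)
    (fxz1 : 2 * x * z - 3 * z ^ 2 ≤ Hxz)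
    (fxzh : z * (x - z) - z ^ 2 / 4 ≤ Hxz)
    (fxzt : (y - z) ^ 2 + 2 * (y - z) * (x - y) ≤ Hxz)
    (fxp0 : 0 ≤ Hxp)
    (fxp1 : 2 * x * p - 3 * p ^ 2 ≤ Hxp)
    (fxph : p * (x - p) - p ^ 2 / 4 ≤ Hxp)
    (fxpt : (y - p) ^ 2 + 2 * (y - p) * (x - y) ≤ Hxp)
    (fxq0 : 0 ≤ Hxq)
    (fxq1 : 2 * x * q - 3 * q ^ 2 ≤ Hxq)
    (fxqh : q * (x - q) - q ^ 2 / 4 ≤ Hxq)
    (fxqt : (y - q) ^ 2 + 2 * (y - q) * (x - y) ≤ Hxq)
    : 111 / 200 * (x + y + z + p + q) ^ 2 ≤ 12 / 5 * y ^ 2 + 18 / 5 * z ^ 2 + 6 * p ^ 2 + 6 * q ^ 2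
      + 3 * (Hxy + Hxz + Hxp + Hxq) - 9 / 5 * ((y - z) ^ 2 + (y - p) ^ 2 + (y - q) ^ 2)
      + 9 / 5 * ((z - p) ^ 2 + (z - q) ^ 2) - 3 * (p - q) ^ 2 := by
  linarith [sq_nonneg (x + y + z + p + q),
    mul_nonneg h1 h3,
    mul_nonneg h1 hM,
    mul_nonneg h2 hL,
    mul_nonneg h2 kyp,
    mul_nonneg h2 kyq,
    mul_nonneg h3 hM,
    mul_nonneg h4 h5,
    mul_nonneg h5 kyp,
    mul_nonneg hM hL,
    mul_nonneg hM kyq,
    sq_nonneg (p - 3 / 2 * z)]

/-- cell y:1 pq:0 xz:0 ; residual 3.44e-15 -/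
theorem nb_10 (x y z p q Hxy Hxz Hxp Hzq : ℝ)
    (h1 : 0 ≤ x - y)
    (h2 : 0 ≤ y - z)
    (h3 : 0 ≤ z - p)
    (h4 : 0 ≤ p - q)
    (h5 : 0 ≤ q)
    (hM : 0 ≤ 470 / 1000 * (x + y + z + p + q) - x)
    (hL : 0 ≤ x - 19 / 50 * (x + y + z + p + q))
    (kyz : 0 ≤ 2 * z - y)
    (kyp : 0 ≤ 2 * p - y)
    (kyq : 0 ≤ y - 2 * q)
    (kpq : 0 ≤ 2 * q - p)
    (fxy0 : 0 ≤ Hxy)
    (fxy1 : 2 * x * y - 3 * y ^ 2 ≤ Hxy)
    (fxyh : y * (x - y) - y ^ 2 / 4 ≤ Hxy)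
    (fxz0 : 0 ≤ Hxz)
    (fxz1 : 2 * x * z - 3 * z ^ 2 ≤ Hxz)
    (fxzh : z * (x - z) - z ^ 2 / 4 ≤ Hxz)
    (fxzt : (y - z) ^ 2 + 2 * (y - z) * (x - y) ≤ Hxz)
    (fxp0 : 0 ≤ Hxp)
    (fxp1 : 2 * x * p - 3 * p ^ 2 ≤ Hxp)
    (fxph : p * (x - p) - p ^ 2 / 4 ≤ Hxp)
    (fxpt : (y - p) ^ 2 + 2 * (y - p) * (x - y) ≤ Hxp)
    (fzq0 : 0 ≤ Hzq)
    (fzq1 : 2 * z * q - 3 * q ^ 2 ≤ Hzq)
    (fzqh : q * (z - q) - q ^ 2 / 4 ≤ Hzq)
    : 111 / 200 * (x + y + z + p + q) ^ 2 ≤ 12 / 5 * y ^ 2 + 18 / 5 * z ^ 2 + 6 * p ^ 2 + 6 * q ^ 2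
      + 3 * (Hxy + Hxz + Hxp + (2 * x * q - 3 * q ^ 2)) - 9 / 5 * ((y - z) ^ 2 + (y - p) ^ 2 + (2 * y * q - 3 * q ^ 2))
      + 9 / 5 * ((z - p) ^ 2 + Hzq) - 3 * (p - q) ^ 2 := by
  linarith [sq_nonneg (x + y + z + p + q),
    mul_nonneg h1 h3,
    mul_nonneg h1 hM,
    mul_nonneg h1 kpq,
    mul_nonneg h2 hL,
    mul_nonneg h2 kyz,
    mul_nonneg h2 kpq,
    mul_nonneg h3 h3,
    mul_nonneg h4 kpq,
    mul_nonneg hM hL,
    mul_nonneg hM kpq,
    mul_nonneg kyp kyq,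
    sq_nonneg (p - 1 / 5 * x),
    sq_nonneg (q - 1 / 5 * z)]

/-- cell y:1 pq:1 xz:0 ; residual 4.34e-15 -/
theorem nb_11 (x y z p q Hxy Hxz Hxp Hzq : ℝ)
    (h1 : 0 ≤ x - y)
    (h2 : 0 ≤ y - z)
    (h3 : 0 ≤ z - p)
    (h4 : 0 ≤ p - q)
    (h5 : 0 ≤ q)
    (hM : 0 ≤ 470 / 1000 * (x + y + z + p + q) - x)
    (hL : 0 ≤ x - 19 / 50 * (x + y + z + p + q))
    (kyz : 0 ≤ 2 * z - y)
    (kyp : 0 ≤ 2 * p - y)
    (kyq : 0 ≤ y - 2 * q)
    (kpq : 0 ≤ p - 2 * q)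
    (fxy0 : 0 ≤ Hxy)
    (fxy1 : 2 * x * y - 3 * y ^ 2 ≤ Hxy)
    (fxyh : y * (x - y) - y ^ 2 / 4 ≤ Hxy)
    (fxz0 : 0 ≤ Hxz)
    (fxz1 : 2 * x * z - 3 * z ^ 2 ≤ Hxz)
    (fxzh : z * (x - z) - z ^ 2 / 4 ≤ Hxz)
    (fxzt : (y - z) ^ 2 + 2 * (y - z) * (x - y) ≤ Hxz)
    (fxp0 : 0 ≤ Hxp)
    (fxp1 : 2 * x * p - 3 * p ^ 2 ≤ Hxp)
    (fxph : p * (x - p) - p ^ 2 / 4 ≤ Hxp)
    (fxpt : (y - p) ^ 2 + 2 * (y - p) * (x - y) ≤ Hxp)
    (fzq0 : 0 ≤ Hzq)
    (fzq1 : 2 * z * q - 3 * q ^ 2 ≤ Hzq)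
    (fzqh : q * (z - q) - q ^ 2 / 4 ≤ Hzq)
    : 111 / 200 * (x + y + z + p + q) ^ 2 ≤ 12 / 5 * y ^ 2 + 18 / 5 * z ^ 2 + 6 * p ^ 2 + 6 * q ^ 2
      + 3 * (Hxy + Hxz + Hxp + (2 * x * q - 3 * q ^ 2)) - 9 / 5 * ((y - z) ^ 2 + (y - p) ^ 2 + (2 * y * q - 3 * q ^ 2))
      + 9 / 5 * ((z - p) ^ 2 + Hzq) - 3 * (2 * p * q - 3 * q ^ 2) := by
  linarith [sq_nonneg (x + y + z + p + q),
    mul_nonneg h1 h3,
    mul_nonneg h1 hM,
    mul_nonneg h2 kyz,
    mul_nonneg h2 kyp,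
    mul_nonneg h4 hL,
    mul_nonneg h5 h5,
    mul_nonneg h5 hL,
    mul_nonneg h5 kyz,
    mul_nonneg kyp kyq,
    mul_nonneg kyq kpq,
    sq_nonneg (z - 1 / 20 * (x + y + z + p + q))]

/-- cell y:3 pq:0 xz:0 ; residual 3.31e-15 -/
theorem nb_30 (x y z p q Hxy Hzp Hzq : ℝ)
    (h1 : 0 ≤ x - y)
    (h2 : 0 ≤ y - z)
    (h3 : 0 ≤ z - p)
    (h4 : 0 ≤ p - q)
    (h5 : 0 ≤ q)
    (hM : 0 ≤ 470 / 1000 * (x + y + z + p + q) - x)
    (hL : 0 ≤ x - 19 / 50 * (x + y + z + p + q))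
    (kyz : 0 ≤ y - 2 * z)
    (kyp : 0 ≤ y - 2 * p)
    (kyq : 0 ≤ y - 2 * q)
    (kpq : 0 ≤ 2 * q - p)
    (fxy0 : 0 ≤ Hxy)
    (fxy1 : 2 * x * y - 3 * y ^ 2 ≤ Hxy)
    (fxyh : y * (x - y) - y ^ 2 / 4 ≤ Hxy)
    (fzp0 : 0 ≤ Hzp)
    (fzp1 : 2 * z * p - 3 * p ^ 2 ≤ Hzp)
    (fzph : p * (z - p) - p ^ 2 / 4 ≤ Hzp)
    (fzq0 : 0 ≤ Hzq)
    (fzq1 : 2 * z * q - 3 * q ^ 2 ≤ Hzq)
    (fzqh : q * (z - q) - q ^ 2 / 4 ≤ Hzq)
    : 111 / 200 * (x + y + z + p + q) ^ 2 ≤ 12 / 5 * y ^ 2 + 18 / 5 * z ^ 2 + 6 * p ^ 2 + 6 * q ^ 2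
      + 3 * (Hxy + (2 * x * z - 3 * z ^ 2) + (2 * x * p - 3 * p ^ 2) + (2 * x * q - 3 * q ^ 2)) - 9 / 5 * ((2 * y * z - 3 * z ^ 2) + (2 * y * p - 3 * p ^ 2) + (2 * y * q - 3 * q ^ 2))
      + 9 / 5 * (Hzp + Hzq) - 3 * (p - q) ^ 2 := by
  linarith [sq_nonneg (x + y + z + p + q),
    mul_nonneg h1 h1,
    mul_nonneg h1 kyz,
    mul_nonneg h2 hM,
    mul_nonneg h2 kyz,
    mul_nonneg h2 kpq,
    mul_nonneg h3 kyz,
    mul_nonneg h4 kyz,
    mul_nonneg h4 kpq,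
    mul_nonneg hM hL,
    mul_nonneg hM kyp,
    mul_nonneg hL kpq,
    sq_nonneg (y - 2 / 5 * (x + y + z + p + q)),
    sq_nonneg (z - 3 / 10 * (x + y + z + p + q))]

/-- cell y:3 pq:1 xz:0 ; residual 2.47e-15 -/
theorem nb_31 (x y z p q Hxy Hzp Hzq : ℝ)
    (h1 : 0 ≤ x - y)
    (h2 : 0 ≤ y - z)
    (h3 : 0 ≤ z - p)
    (h4 : 0 ≤ p - q)
    (h5 : 0 ≤ q)
    (hM : 0 ≤ 470 / 1000 * (x + y + z + p + q) - x)
    (hL : 0 ≤ x - 19 / 50 * (x + y + z + p + q))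
    (kyz : 0 ≤ y - 2 * z)
    (kyp : 0 ≤ y - 2 * p)
    (kyq : 0 ≤ y - 2 * q)
    (kpq : 0 ≤ p - 2 * q)
    (fxy0 : 0 ≤ Hxy)
    (fxy1 : 2 * x * y - 3 * y ^ 2 ≤ Hxy)
    (fxyh : y * (x - y) - y ^ 2 / 4 ≤ Hxy)
    (fzp0 : 0 ≤ Hzp)
    (fzp1 : 2 * z * p - 3 * p ^ 2 ≤ Hzp)
    (fzph : p * (z - p) - p ^ 2 / 4 ≤ Hzp)
    (fzq0 : 0 ≤ Hzq)
    (fzq1 : 2 * z * q - 3 * q ^ 2 ≤ Hzq)
    (fzqh : q * (z - q) - q ^ 2 / 4 ≤ Hzq)
    : 111 / 200 * (x + y + z + p + q) ^ 2 ≤ 12 / 5 * y ^ 2 + 18 / 5 * z ^ 2 + 6 * p ^ 2 + 6 * q ^ 2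
      + 3 * (Hxy + (2 * x * z - 3 * z ^ 2) + (2 * x * p - 3 * p ^ 2) + (2 * x * q - 3 * q ^ 2)) - 9 / 5 * ((2 * y * z - 3 * z ^ 2) + (2 * y * p - 3 * p ^ 2) + (2 * y * q - 3 * q ^ 2))
      + 9 / 5 * (Hzp + Hzq) - 3 * (2 * p * q - 3 * q ^ 2) := by
  linarith [sq_nonneg (x + y + z + p + q),
    mul_nonneg h1 h1,
    mul_nonneg h1 h4,
    mul_nonneg h1 h5,
    mul_nonneg h2 hM,
    mul_nonneg h3 kpq,
    mul_nonneg h4 hM,
    mul_nonneg h4 kyq,
    mul_nonneg hM hL,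
    mul_nonneg hM kyz,
    sq_nonneg (z - 1 / 3 * y),
    sq_nonneg (y - 7 / 20 * (x + y + z + p + q)),
    sq_nonneg (y - 2 / 5 * (x + y + z + p + q)),
    sq_nonneg (y - 9 / 20 * (x + y + z + p + q)),
    sq_nonneg (q - 1 / 3 * p)]

/-- cell y:2 pq:0 xz:1 ; residual 5.51e-15 -/
theorem nc_201 (x y z p q Hxy Hzp Hzq : ℝ)
    (h1 : 0 ≤ x - y)
    (h2 : 0 ≤ y - z)
    (h3 : 0 ≤ z - p)
    (h4 : 0 ≤ p - q)
    (h5 : 0 ≤ q)
    (hM : 0 ≤ 21 / 50 * (x + y + z + p + q) - x)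
    (hL : 0 ≤ x - 19 / 50 * (x + y + z + p + q))
    (kyz : 0 ≤ 2 * z - y)
    (kyp : 0 ≤ y - 2 * p)
    (kyq : 0 ≤ y - 2 * q)
    (kpq : 0 ≤ 2 * q - p)
    (kxz : 0 ≤ 2 * z - x)
    (fxy0 : 0 ≤ Hxy)
    (fxy1 : 2 * x * y - 3 * y ^ 2 ≤ Hxy)
    (fxyh : y * (x - y) - y ^ 2 / 4 ≤ Hxy)
    (fzp0 : 0 ≤ Hzp)
    (fzp1 : 2 * z * p - 3 * p ^ 2 ≤ Hzp)
    (fzph : p * (z - p) - p ^ 2 / 4 ≤ Hzp)
    (fzq0 : 0 ≤ Hzq)
    (fzq1 : 2 * z * q - 3 * q ^ 2 ≤ Hzq)
    (fzqh : q * (z - q) - q ^ 2 / 4 ≤ Hzq)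
    : 111 / 200 * (x + y + z + p + q) ^ 2 ≤ 12 / 5 * y ^ 2 + 18 / 5 * z ^ 2 + 6 * p ^ 2 + 6 * q ^ 2
      + 3 * (Hxy + (x - z) ^ 2 + (2 * x * p - 3 * p ^ 2) + (2 * x * q - 3 * q ^ 2)) - 9 / 5 * ((y - z) ^ 2 + (2 * y * p - 3 * p ^ 2) + (2 * y * q - 3 * q ^ 2))
      + 9 / 5 * (Hzp + Hzq) - 3 * (p - q) ^ 2 := by
  linarith [sq_nonneg (x + y + z + p + q),
    mul_nonneg h2 h4,
    mul_nonneg h2 hL,
    mul_nonneg h4 hL,
    mul_nonneg h4 kyz,
    mul_nonneg h4 kpq,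
    mul_nonneg h5 h5,
    mul_nonneg h5 hL,
    mul_nonneg h5 kyz,
    mul_nonneg hM hM,
    mul_nonneg hM kyz,
    sq_nonneg (z - 2 / 3 * x),
    sq_nonneg (y - 7 / 20 * (x + y + z + p + q)),
    sq_nonneg (q - 3 / 2 * p)]

/-- cell y:2 pq:1 xz:1 ; residual 3.04e-15 -/
theorem nc_211 (x y z p q Hxy Hzp Hzq : ℝ)
    (h1 : 0 ≤ x - y)
    (h2 : 0 ≤ y - z)
    (h3 : 0 ≤ z - p)
    (h4 : 0 ≤ p - q)
    (h5 : 0 ≤ q)
    (hM : 0 ≤ 21 / 50 * (x + y + z + p + q) - x)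
    (hL : 0 ≤ x - 19 / 50 * (x + y + z + p + q))
    (kyz : 0 ≤ 2 * z - y)
    (kyp : 0 ≤ y - 2 * p)
    (kyq : 0 ≤ y - 2 * q)
    (kpq : 0 ≤ p - 2 * q)
    (kxz : 0 ≤ 2 * z - x)
    (fxy0 : 0 ≤ Hxy)
    (fxy1 : 2 * x * y - 3 * y ^ 2 ≤ Hxy)
    (fxyh : y * (x - y) - y ^ 2 / 4 ≤ Hxy)
    (fzp0 : 0 ≤ Hzp)
    (fzp1 : 2 * z * p - 3 * p ^ 2 ≤ Hzp)
    (fzph : p * (z - p) - p ^ 2 / 4 ≤ Hzp)
    (fzq0 : 0 ≤ Hzq)
    (fzq1 : 2 * z * q - 3 * q ^ 2 ≤ Hzq)
    (fzqh : q * (z - q) - q ^ 2 / 4 ≤ Hzq)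
    : 111 / 200 * (x + y + z + p + q) ^ 2 ≤ 12 / 5 * y ^ 2 + 18 / 5 * z ^ 2 + 6 * p ^ 2 + 6 * q ^ 2
      + 3 * (Hxy + (x - z) ^ 2 + (2 * x * p - 3 * p ^ 2) + (2 * x * q - 3 * q ^ 2)) - 9 / 5 * ((y - z) ^ 2 + (2 * y * p - 3 * p ^ 2) + (2 * y * q - 3 * q ^ 2))
      + 9 / 5 * (Hzp + Hzq) - 3 * (2 * p * q - 3 * q ^ 2) := by
  linarith [sq_nonneg (x + y + z + p + q),
    mul_nonneg h1 h4,
    mul_nonneg h1 h5,
    mul_nonneg h2 h5,
    mul_nonneg h4 hL,
    mul_nonneg h5 hL,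
    mul_nonneg hM kyz,
    mul_nonneg kyp kpq,
    sq_nonneg (z - 2 / 3 * x),
    sq_nonneg (z - 3 / 4 * x),
    sq_nonneg (x - 2 / 5 * (x + y + z + p + q)),
    sq_nonneg (z - 2 / 3 * y),
    sq_nonneg (q - 1 / 3 * p)]

/-- cell y:2 pq:0 xz:2 ; residual 5.26e-15 -/
theorem nc_202 (x y z p q Hxy Hzp Hzq : ℝ)
    (h1 : 0 ≤ x - y)
    (h2 : 0 ≤ y - z)
    (h3 : 0 ≤ z - p)
    (h4 : 0 ≤ p - q)
    (h5 : 0 ≤ q)
    (hM : 0 ≤ 21 / 50 * (x + y + z + p + q) - x)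
    (hL : 0 ≤ x - 19 / 50 * (x + y + z + p + q))
    (kyz : 0 ≤ 2 * z - y)
    (kyp : 0 ≤ y - 2 * p)
    (kyq : 0 ≤ y - 2 * q)
    (kpq : 0 ≤ 2 * q - p)
    (kxz : 0 ≤ x - 2 * z)
    (fxy0 : 0 ≤ Hxy)
    (fxy1 : 2 * x * y - 3 * y ^ 2 ≤ Hxy)
    (fxyh : y * (x - y) - y ^ 2 / 4 ≤ Hxy)
    (fzp0 : 0 ≤ Hzp)
    (fzp1 : 2 * z * p - 3 * p ^ 2 ≤ Hzp)
    (fzph : p * (z - p) - p ^ 2 / 4 ≤ Hzp)
    (fzq0 : 0 ≤ Hzq)
    (fzq1 : 2 * z * q - 3 * q ^ 2 ≤ Hzq)
    (fzqh : q * (z - q) - q ^ 2 / 4 ≤ Hzq)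
    : 111 / 200 * (x + y + z + p + q) ^ 2 ≤ 12 / 5 * y ^ 2 + 18 / 5 * z ^ 2 + 6 * p ^ 2 + 6 * q ^ 2
      + 3 * (Hxy + (2 * x * z - 3 * z ^ 2) + (2 * x * p - 3 * p ^ 2) + (2 * x * q - 3 * q ^ 2)) - 9 / 5 * ((y - z) ^ 2 + (2 * y * p - 3 * p ^ 2) + (2 * y * q - 3 * q ^ 2))
      + 9 / 5 * (Hzp + Hzq) - 3 * (p - q) ^ 2 := by
  linarith [sq_nonneg (x + y + z + p + q),
    mul_nonneg h1 h4,
    mul_nonneg h1 kxz,
    mul_nonneg h4 kyq,
    mul_nonneg h4 kpq,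
    mul_nonneg h5 h5,
    mul_nonneg hM hL,
    mul_nonneg hM kyz,
    mul_nonneg hL kyq,
    mul_nonneg kyz kyq,
    mul_nonneg kyz kxz,
    mul_nonneg kyp kxz,
    sq_nonneg (q - 1 / 3 * y),
    sq_nonneg (y - 7 / 20 * (x + y + z + p + q)),
    sq_nonneg (y - 9 / 20 * (x + y + z + p + q)),
    sq_nonneg (p - 1 / 5 * z)]

/-- cell y:2 pq:1 xz:2 ; residual 5.17e-15 -/
theorem nc_212 (x y z p q Hxy Hzp Hzq : ℝ)
    (h1 : 0 ≤ x - y)
    (h2 : 0 ≤ y - z)
    (h3 : 0 ≤ z - p)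
    (h4 : 0 ≤ p - q)
    (h5 : 0 ≤ q)
    (hM : 0 ≤ 21 / 50 * (x + y + z + p + q) - x)
    (hL : 0 ≤ x - 19 / 50 * (x + y + z + p + q))
    (kyz : 0 ≤ 2 * z - y)
    (kyp : 0 ≤ y - 2 * p)
    (kyq : 0 ≤ y - 2 * q)
    (kpq : 0 ≤ p - 2 * q)
    (kxz : 0 ≤ x - 2 * z)
    (fxy0 : 0 ≤ Hxy)
    (fxy1 : 2 * x * y - 3 * y ^ 2 ≤ Hxy)
    (fxyh : y * (x - y) - y ^ 2 / 4 ≤ Hxy)
    (fzp0 : 0 ≤ Hzp)
    (fzp1 : 2 * z * p - 3 * p ^ 2 ≤ Hzp)
    (fzph : p * (z - p) - p ^ 2 / 4 ≤ Hzp)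
    (fzq0 : 0 ≤ Hzq)
    (fzq1 : 2 * z * q - 3 * q ^ 2 ≤ Hzq)
    (fzqh : q * (z - q) - q ^ 2 / 4 ≤ Hzq)
    : 111 / 200 * (x + y + z + p + q) ^ 2 ≤ 12 / 5 * y ^ 2 + 18 / 5 * z ^ 2 + 6 * p ^ 2 + 6 * q ^ 2
      + 3 * (Hxy + (2 * x * z - 3 * z ^ 2) + (2 * x * p - 3 * p ^ 2) + (2 * x * q - 3 * q ^ 2)) - 9 / 5 * ((y - z) ^ 2 + (2 * y * p - 3 * p ^ 2) + (2 * y * q - 3 * q ^ 2))
      + 9 / 5 * (Hzp + Hzq) - 3 * (2 * p * q - 3 * q ^ 2) := by
  linarith [sq_nonneg (x + y + z + p + q),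
    mul_nonneg h1 h5,
    mul_nonneg h1 kyq,
    mul_nonneg h1 kxz,
    mul_nonneg h2 h5,
    mul_nonneg h4 kyq,
    mul_nonneg h5 hM,
    mul_nonneg hM hL,
    mul_nonneg kyz kxz,
    mul_nonneg kyp kpq,
    mul_nonneg kyp kxz,
    sq_nonneg (p - 1 / 5 * y),
    sq_nonneg (y - 2 / 5 * (x + y + z + p + q)),
    sq_nonneg (z - 3 / 10 * (x + y + z + p + q)),
    sq_nonneg (z - 9 / 20 * (x + y + z + p + q)),
    sq_nonneg (q - 1 / 3 * p)]

/-- cell y:2 pq:0 xz:1 ; residual 4.87e-15 -/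
theorem nd_201 (x y z p q Hxy Hzp Hzq : ℝ)
    (h1 : 0 ≤ x - y)
    (h2 : 0 ≤ y - z)
    (h3 : 0 ≤ z - p)
    (h4 : 0 ≤ p - q)
    (h5 : 0 ≤ q)
    (hM : 0 ≤ 470 / 1000 * (x + y + z + p + q) - x)
    (hL : 0 ≤ x - 21 / 50 * (x + y + z + p + q))
    (kyz : 0 ≤ 2 * z - y)
    (kyp : 0 ≤ y - 2 * p)
    (kyq : 0 ≤ y - 2 * q)
    (kpq : 0 ≤ 2 * q - p)
    (kxz : 0 ≤ 2 * z - x)
    (fxy0 : 0 ≤ Hxy)
    (fxy1 : 2 * x * y - 3 * y ^ 2 ≤ Hxy)
    (fxyh : y * (x - y) - y ^ 2 / 4 ≤ Hxy)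
    (fzp0 : 0 ≤ Hzp)
    (fzp1 : 2 * z * p - 3 * p ^ 2 ≤ Hzp)
    (fzph : p * (z - p) - p ^ 2 / 4 ≤ Hzp)
    (fzq0 : 0 ≤ Hzq)
    (fzq1 : 2 * z * q - 3 * q ^ 2 ≤ Hzq)
    (fzqh : q * (z - q) - q ^ 2 / 4 ≤ Hzq)
    : 111 / 200 * (x + y + z + p + q) ^ 2 ≤ 12 / 5 * y ^ 2 + 18 / 5 * z ^ 2 + 6 * p ^ 2 + 6 * q ^ 2
      + 3 * (Hxy + (x - z) ^ 2 + (2 * x * p - 3 * p ^ 2) + (2 * x * q - 3 * q ^ 2)) - 9 / 5 * ((y - z) ^ 2 + (2 * y * p - 3 * p ^ 2) + (2 * y * q - 3 * q ^ 2))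
      + 9 / 5 * (Hzp + Hzq) - 3 * (p - q) ^ 2 := by
  linarith [sq_nonneg (x + y + z + p + q),
    mul_nonneg h1 h4,
    mul_nonneg h1 h5,
    mul_nonneg h1 hL,
    mul_nonneg h2 h5,
    mul_nonneg h2 hL,
    mul_nonneg h2 kxz,
    mul_nonneg h3 h5,
    mul_nonneg h4 h5,
    mul_nonneg h4 kyp,
    mul_nonneg h5 hL,
    mul_nonneg hM kpq,
    mul_nonneg hL hL,
    mul_nonneg kxz kxz]

/-- cell y:2 pq:1 xz:1 ; residual 5.94e-15 -/
theorem nd_211 (x y z p q Hxy Hzp Hzq : ℝ)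
    (h1 : 0 ≤ x - y)
    (h2 : 0 ≤ y - z)
    (h3 : 0 ≤ z - p)
    (h4 : 0 ≤ p - q)
    (h5 : 0 ≤ q)
    (hM : 0 ≤ 470 / 1000 * (x + y + z + p + q) - x)
    (hL : 0 ≤ x - 21 / 50 * (x + y + z + p + q))
    (kyz : 0 ≤ 2 * z - y)
    (kyp : 0 ≤ y - 2 * p)
    (kyq : 0 ≤ y - 2 * q)
    (kpq : 0 ≤ p - 2 * q)
    (kxz : 0 ≤ 2 * z - x)
    (fxy0 : 0 ≤ Hxy)
    (fxy1 : 2 * x * y - 3 * y ^ 2 ≤ Hxy)
    (fxyh : y * (x - y) - y ^ 2 / 4 ≤ Hxy)
    (fzp0 : 0 ≤ Hzp)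
    (fzp1 : 2 * z * p - 3 * p ^ 2 ≤ Hzp)
    (fzph : p * (z - p) - p ^ 2 / 4 ≤ Hzp)
    (fzq0 : 0 ≤ Hzq)
    (fzq1 : 2 * z * q - 3 * q ^ 2 ≤ Hzq)
    (fzqh : q * (z - q) - q ^ 2 / 4 ≤ Hzq)
    : 111 / 200 * (x + y + z + p + q) ^ 2 ≤ 12 / 5 * y ^ 2 + 18 / 5 * z ^ 2 + 6 * p ^ 2 + 6 * q ^ 2
      + 3 * (Hxy + (x - z) ^ 2 + (2 * x * p - 3 * p ^ 2) + (2 * x * q - 3 * q ^ 2)) - 9 / 5 * ((y - z) ^ 2 + (2 * y * p - 3 * p ^ 2) + (2 * y * q - 3 * q ^ 2))
      + 9 / 5 * (Hzp + Hzq) - 3 * (2 * p * q - 3 * q ^ 2) := by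
  linarith [sq_nonneg (x + y + z + p + q),
    mul_nonneg h1 h4,
    mul_nonneg h1 h5,
    mul_nonneg h1 hL,
    mul_nonneg h2 h4,
    mul_nonneg h2 h5,
    mul_nonneg h2 hL,
    mul_nonneg h4 hL,
    mul_nonneg h5 hL,
    mul_nonneg hM kxz,
    mul_nonneg kyp kpq,
    sq_nonneg (z - 3 / 4 * x),
    sq_nonneg (z - 3 / 5 * y),
    sq_nonneg (p - 1 / 5 * z),
    sq_nonneg (q - 1 / 3 * p)]

/-- cell y:2 pq:0 xz:2 ; residual 5.09e-15 -/
theorem nd_202 (x y z p q Hxy Hzp Hzq : ℝ)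
    (h1 : 0 ≤ x - y)
    (h2 : 0 ≤ y - z)
    (h3 : 0 ≤ z - p)
    (h4 : 0 ≤ p - q)
    (h5 : 0 ≤ q)
    (hM : 0 ≤ 470 / 1000 * (x + y + z + p + q) - x)
    (hL : 0 ≤ x - 21 / 50 * (x + y + z + p + q))
    (kyz : 0 ≤ 2 * z - y)
    (kyp : 0 ≤ y - 2 * p)
    (kyq : 0 ≤ y - 2 * q)
    (kpq : 0 ≤ 2 * q - p)
    (kxz : 0 ≤ x - 2 * z)
    (fxy0 : 0 ≤ Hxy)
    (fxy1 : 2 * x * y - 3 * y ^ 2 ≤ Hxy)
    (fxyh : y * (x - y) - y ^ 2 / 4 ≤ Hxy)
    (fzp0 : 0 ≤ Hzp)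
    (fzp1 : 2 * z * p - 3 * p ^ 2 ≤ Hzp)
    (fzph : p * (z - p) - p ^ 2 / 4 ≤ Hzp)
    (fzq0 : 0 ≤ Hzq)
    (fzq1 : 2 * z * q - 3 * q ^ 2 ≤ Hzq)
    (fzqh : q * (z - q) - q ^ 2 / 4 ≤ Hzq)
    : 111 / 200 * (x + y + z + p + q) ^ 2 ≤ 12 / 5 * y ^ 2 + 18 / 5 * z ^ 2 + 6 * p ^ 2 + 6 * q ^ 2
      + 3 * (Hxy + (2 * x * z - 3 * z ^ 2) + (2 * x * p - 3 * p ^ 2) + (2 * x * q - 3 * q ^ 2)) - 9 / 5 * ((y - z) ^ 2 + (2 * y * p - 3 * p ^ 2) + (2 * y * q - 3 * q ^ 2))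
      + 9 / 5 * (Hzp + Hzq) - 3 * (p - q) ^ 2 := by
  linarith [sq_nonneg (x + y + z + p + q),
    mul_nonneg h1 h4,
    mul_nonneg h1 kxz,
    mul_nonneg h4 kyz,
    mul_nonneg h4 kyq,
    mul_nonneg h4 kpq,
    mul_nonneg h5 h5,
    mul_nonneg h5 kyq,
    mul_nonneg h5 kxz,
    mul_nonneg hM hL,
    mul_nonneg hM kyz,
    mul_nonneg kyz kyp,
    mul_nonneg kyz kxz,
    sq_nonneg (y - 7 / 20 * (x + y + z + p + q)),
    sq_nonneg (p - 1 / 5 * z)]

/-- cell y:2 pq:1 xz:2 ; residual 3.49e-15 -/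
theorem nd_212 (x y z p q Hxy Hzp Hzq : ℝ)
    (h1 : 0 ≤ x - y)
    (h2 : 0 ≤ y - z)
    (h3 : 0 ≤ z - p)
    (h4 : 0 ≤ p - q)
    (h5 : 0 ≤ q)
    (hM : 0 ≤ 470 / 1000 * (x + y + z + p + q) - x)
    (hL : 0 ≤ x - 21 / 50 * (x + y + z + p + q))
    (kyz : 0 ≤ 2 * z - y)
    (kyp : 0 ≤ y - 2 * p)
    (kyq : 0 ≤ y - 2 * q)
    (kpq : 0 ≤ p - 2 * q)
    (kxz : 0 ≤ x - 2 * z)
    (fxy0 : 0 ≤ Hxy)
    (fxy1 : 2 * x * y - 3 * y ^ 2 ≤ Hxy)
    (fxyh : y * (x - y) - y ^ 2 / 4 ≤ Hxy)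
    (fzp0 : 0 ≤ Hzp)
    (fzp1 : 2 * z * p - 3 * p ^ 2 ≤ Hzp)
    (fzph : p * (z - p) - p ^ 2 / 4 ≤ Hzp)
    (fzq0 : 0 ≤ Hzq)
    (fzq1 : 2 * z * q - 3 * q ^ 2 ≤ Hzq)
    (fzqh : q * (z - q) - q ^ 2 / 4 ≤ Hzq)
    : 111 / 200 * (x + y + z + p + q) ^ 2 ≤ 12 / 5 * y ^ 2 + 18 / 5 * z ^ 2 + 6 * p ^ 2 + 6 * q ^ 2
      + 3 * (Hxy + (2 * x * z - 3 * z ^ 2) + (2 * x * p - 3 * p ^ 2) + (2 * x * q - 3 * q ^ 2)) - 9 / 5 * ((y - z) ^ 2 + (2 * y * p - 3 * p ^ 2) + (2 * y * q - 3 * q ^ 2))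
      + 9 / 5 * (Hzp + Hzq) - 3 * (2 * p * q - 3 * q ^ 2) := by
  linarith [sq_nonneg (x + y + z + p + q),
    mul_nonneg h1 h4,
    mul_nonneg h1 h5,
    mul_nonneg h1 kxz,
    mul_nonneg h2 h5,
    mul_nonneg h4 kyq,
    mul_nonneg h4 kxz,
    mul_nonneg hM hL,
    mul_nonneg hM kyz,
    mul_nonneg kyz kxz,
    mul_nonneg kyp kpq,
    mul_nonneg kyq kxz,
    sq_nonneg (p - 1 / 5 * y),
    sq_nonneg (y - 9 / 20 * (x + y + z + p + q)),
    sq_nonneg (q - 1 / 3 * p)]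


theorem hr_nonneg (x y : ℝ) (hy : 0 ≤ y) : 0 ≤ HR x y := by
  unfold HR
  split_ifs with h1 h2
  · exact le_rfl
  · positivity
  · push Not at h2
    nlinarith

theorem hr_sq (x y : ℝ) (h : y ≤ x) (h2 : x ≤ 2 * y) : HR x y = (x - y) ^ 2 := by
  unfold HR
  split_ifs with h1
  · have : x = y := le_antisymm h1 h
    rw [this]; ring
  · rfl

theorem hr_tail (x y : ℝ) (hy : 0 ≤ y) (h2 : 2 * y ≤ x) : HR x y = 2 * x * y - 3 * y ^ 2 := by
  unfold HR
  split_ifs with h1 h3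
  · have h4 : y = 0 := by linarith
    rw [h4]; ring
  · have h4 : x = 2 * y := le_antisymm h3 h2
    rw [h4]; ring
  · rfl

theorem hr_one (x y : ℝ) (hy : 0 ≤ y) : 2 * x * y - 3 * y ^ 2 ≤ HR x y := by
  unfold HR
  split_ifs with h1 h3
  · nlinarith
  · nlinarith [sq_nonneg (x - 2 * y)]
  · exact le_rfl

theorem hr_half (x y : ℝ) (hy : 0 ≤ y) : y * (x - y) - y ^ 2 / 4 ≤ HR x y := by
  unfold HR
  split_ifs with h1 h3
  · nlinarith
  · nlinarith [sq_nonneg (2 * x - 3 * y)]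
  · push Not at h3
    nlinarith

theorem hr_tan (x y r : ℝ) (h1 : y ≤ x) (h2 : r ≤ y) (h3 : y ≤ 2 * r) :
    (y - r) ^ 2 + 2 * (y - r) * (x - y) ≤ HR x r := by
  unfold HR
  split_ifs with h4 h5
  · have : x = y := by linarith
    have h6 : y = r := by linarith
    rw [this, h6]; ring_nf; exact le_rfl
  · nlinarith [sq_nonneg (x - y)]
  · push Not at h5
    nlinarith [sq_nonneg (y - 2 * r), mul_nonneg (by linarith : (0:ℝ) ≤ 2 * r - y) (by linarith : (0:ℝ) ≤ x - y)]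

/-- the numerical inequality for five levels -/
theorem num_five (x y z p q : ℝ) (h1 : y ≤ x) (h2 : z ≤ y) (h3 : p ≤ z) (h4 : q ≤ p)
    (h5 : 0 ≤ q) (hM : x ≤ 47 / 100 * (x + y + z + p + q)) :
    111 / 200 * (x + y + z + p + q) ^ 2 ≤ 12 / 5 * y ^ 2 + 18 / 5 * z ^ 2 + 6 * p ^ 2 + 6 * q ^ 2
      + 3 * (HR x y + HR x z + HR x p + HR x q) - 9 / 5 * (HR y z + HR y p + HR y q)
      + 9 / 5 * (HR z p + HR z q) - 3 * HR p q := by
  rcases le_total x (19 / 50 * (x + y + z + p + q)) with hL | hL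
  · rcases le_total y (2 * q) with kyq | kyq
    · rw [hr_sq y z (by linarith) (by linarith),
        hr_sq y p (by linarith) (by linarith),
        hr_sq y q (by linarith) (by linarith),
        hr_sq z p (by linarith) (by linarith),
        hr_sq z q (by linarith) (by linarith),
        hr_sq p q (by linarith) (by linarith)]
      exact na_00 x y z p q (HR x y) (HR x z) (HR x p) (HR x q) (by linarith) (by linarith) (by linarith) (by linarith) (by linarith) (by linarith) (by linarith) (by linarith) (by linarith) (by linarith) (hr_nonneg x y (by linarith)) (hr_one x y (by linarith)) (hr_half x y (by linarith)) (hr_nonneg x z (by linarith)) (hr_one x z (by linarith)) (hr_half x z (by linarith)) (hr_tan x y z (by linarith) (by linarith) (by linarith)) (hr_nonneg x p (by linarith)) (hr_one x p (by linarith)) (hr_half x p (by linarith)) (hr_tan x y p (by linarith) (by linarith) (by linarith)) (hr_nonneg x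 q (by linarith)) (hr_one x q (by linarith)) (hr_half x q (by linarith)) (hr_tan x y q (by linarith) (by linarith) (by linarith))
    · rcases le_total y (2 * p) with kyp | kyp
      · rcases le_total p (2 * q) with kpq | kpq
        · rw [hr_sq y z (by linarith) (by linarith),
            hr_sq y p (by linarith) (by linarith),
            hr_tail y q (by linarith) (by linarith),
            hr_tail x q (by linarith) (by linarith),
            hr_sq z p (by linarith) (by linarith),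
            hr_sq p q (by linarith) (by linarith)]
          exact na_10 x y z p q (HR x y) (HR x z) (HR x p) (HR z q) (by linarith) (by linarith) (by linarith) (by linarith) (by linarith) (by linarith) (by linarith) (by linarith) (by linarith) (by linarith) (hr_nonneg x y (by linarith)) (hr_one x y (by linarith)) (hr_half x y (by linarith)) (hr_nonneg x z (by linarith)) (hr_one x z (by linarith)) (hr_half x z (by linarith)) (hr_tan x y z (by linarith) (by linarith) (by linarith)) (hr_nonneg x p (by linarith)) (hr_one x p (by linarith)) (hr_half x p (by linarith)) (hr_tan x y p (by linarith) (by linarith) (by linarith)) (hr_nonneg z q (by linarith)) (hr_one z q (by linarith)) (hr_half z q (by linarith))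
        · rw [hr_sq y z (by linarith) (by linarith),
            hr_sq y p (by linarith) (by linarith),
            hr_tail y q (by linarith) (by linarith),
            hr_tail x q (by linarith) (by linarith),
            hr_sq z p (by linarith) (by linarith),
            hr_tail p q (by linarith) (by linarith)]
          exact na_11 x y z p q (HR x y) (HR x z) (HR x p) (HR z q) (by linarith) (by linarith) (by linarith) (by linarith) (by linarith) (by linarith) (by linarith) (by linarith) (by linarith) (by linarith) (hr_nonneg x y (by linarith)) (hr_one x y (by linarith)) (hr_half x y (by linarith)) (hr_nonneg x z (by linarith)) (hr_one x z (by linarith)) (hr_half x z (by linarith)) (hr_tan x y z (by linarith) (by linarith) (by linarith)) (hr_nonneg x p (by linarith)) (hr_one x p (by linarith)) (hr_half x p (by linarith)) (hr_tan x y p (by linarith) (by linarith) (by linarith)) (hr_nonneg z q (by linarith))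 (hr_one z q (by linarith)) (hr_half z q (by linarith))
      · rcases le_total y (2 * z) with kyz | kyz
        · rcases le_total p (2 * q) with kpq | kpq
          · rw [hr_sq y z (by linarith) (by linarith),
              hr_tail y p (by linarith) (by linarith),
              hr_tail x p (by linarith) (by linarith),
              hr_tail y q (by linarith) (by linarith),
              hr_tail x q (by linarith) (by linarith),
              hr_sq p q (by linarith) (by linarith)]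
            exact na_20 x y z p q (HR x y) (HR x z) (HR z p) (HR z q) (by linarith) (by linarith) (by linarith) (by linarith) (by linarith) (by linarith) (by linarith) (by linarith) (by linarith) (by linarith) (hr_nonneg x y (by linarith)) (hr_one x y (by linarith)) (hr_half x y (by linarith)) (hr_nonneg x z (by linarith)) (hr_one x z (by linarith)) (hr_half x z (by linarith)) (hr_tan x y z (by linarith) (by linarith) (by linarith)) (hr_nonneg z p (by linarith)) (hr_one z p (by linarith)) (hr_half z p (by linarith)) (hr_nonneg z q (by linarith)) (hr_one z q (by linarith)) (hr_half z q (by linarith))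
          · rw [hr_sq y z (by linarith) (by linarith),
              hr_tail y p (by linarith) (by linarith),
              hr_tail x p (by linarith) (by linarith),
              hr_tail y q (by linarith) (by linarith),
              hr_tail x q (by linarith) (by linarith),
              hr_tail p q (by linarith) (by linarith)]
            exact na_21 x y z p q (HR x y) (HR x z) (HR z p) (HR z q) (by linarith) (by linarith) (by linarith) (by linarith) (by linarith) (by linarith) (by linarith) (by linarith) (by linarith) (by linarith) (hr_nonneg x y (by linarith)) (hr_one x y (by linarith)) (hr_half x y (by linarith)) (hr_nonneg x z (by linarith)) (hr_one x z (by linarith)) (hr_half x z (by linarith)) (hr_tan x y z (by linarith) (by linarith) (by linarith)) (hr_nonneg z p (by linarith)) (hr_one z p (by linarith)) (hr_half z p (by linarith)) (hr_nonneg z q (by linarith)) (hr_one z q (by linarith)) (hr_half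 z q (by linarith))
        · rcases le_total p (2 * q) with kpq | kpq
          · rw [hr_tail y z (by linarith) (by linarith),
              hr_tail x z (by linarith) (by linarith),
              hr_tail y p (by linarith) (by linarith),
              hr_tail x p (by linarith) (by linarith),
              hr_tail y q (by linarith) (by linarith),
              hr_tail x q (by linarith) (by linarith),
              hr_sq p q (by linarith) (by linarith)]
            exact na_30 x y z p q (HR x y) (HR z p) (HR z q) (by linarith) (by linarith) (by linarith) (by linarith) (by linarith) (by linarith) (by linarith) (by linarith) (by linarith) (by linarith) (hr_nonneg x y (by linarith)) (hr_one x y (by linarith)) (hr_half x y (by linarith)) (hr_nonneg z p (by linarith)) (hr_one z p (by linarith)) (hr_half z p (by linarith)) (hr_nonneg z q (by linarith)) (hr_one z q (by linarith)) (hr_half z q (by linarith))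
          · rw [hr_tail y z (by linarith) (by linarith),
              hr_tail x z (by linarith) (by linarith),
              hr_tail y p (by linarith) (by linarith),
              hr_tail x p (by linarith) (by linarith),
              hr_tail y q (by linarith) (by linarith),
              hr_tail x q (by linarith) (by linarith),
              hr_tail p q (by linarith) (by linarith)]
            exact na_31 x y z p q (HR x y) (HR z p) (HR z q) (by linarith) (by linarith) (by linarith) (by linarith) (by linarith) (by linarith) (by linarith) (by linarith) (by linarith) (by linarith) (hr_nonneg x y (by linarith)) (hr_one x y (by linarith)) (hr_half x y (by linarith)) (hr_nonneg z p (by linarith)) (hr_one z p (by linarith)) (hr_half z p (by linarith)) (hr_nonneg z q (by linarith)) (hr_one z q (by linarith)) (hr_half z q (by linarith))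
  · rcases le_total y (2 * q) with kyq | kyq
    · rw [hr_sq y z (by linarith) (by linarith),
        hr_sq y p (by linarith) (by linarith),
        hr_sq y q (by linarith) (by linarith),
        hr_sq z p (by linarith) (by linarith),
        hr_sq z q (by linarith) (by linarith),
        hr_sq p q (by linarith) (by linarith)]
      exact nb_00 x y z p q (HR x y) (HR x z) (HR x p) (HR x q) (by linarith) (by linarith) (by linarith) (by linarith) (by linarith) (by linarith) (by linarith) (by linarith) (by linarith) (by linarith) (by linarith) (hr_nonneg x y (by linarith)) (hr_one x y (by linarith)) (hr_half x y (by linarith)) (hr_nonneg x z (by linarith)) (hr_one x z (by linarith)) (hr_half x z (by linarith)) (hr_tan x y z (by linarith) (by linarith) (by linarith)) (hr_nonneg x p (by linarith)) (hr_one x p (by linarith)) (hr_half x p (by linarith)) (hr_tan x y p (by linarith) (by linarith) (by linarith))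 (hr_nonneg x q (by linarith)) (hr_one x q (by linarith)) (hr_half x q (by linarith)) (hr_tan x y q (by linarith) (by linarith) (by linarith))
    · rcases le_total y (2 * p) with kyp | kyp
      · rcases le_total p (2 * q) with kpq | kpq
        · rw [hr_sq y z (by linarith) (by linarith),
            hr_sq y p (by linarith) (by linarith),
            hr_tail y q (by linarith) (by linarith),
            hr_tail x q (by linarith) (by linarith),
            hr_sq z p (by linarith) (by linarith),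
            hr_sq p q (by linarith) (by linarith)]
          exact nb_10 x y z p q (HR x y) (HR x z) (HR x p) (HR z q) (by linarith) (by linarith) (by linarith) (by linarith) (by linarith) (by linarith) (by linarith) (by linarith) (by linarith) (by linarith) (by linarith) (hr_nonneg x y (by linarith)) (hr_one x y (by linarith)) (hr_half x y (by linarith)) (hr_nonneg x z (by linarith)) (hr_one x z (by linarith)) (hr_half x z (by linarith)) (hr_tan x y z (by linarith) (by linarith) (by linarith)) (hr_nonneg x p (by linarith)) (hr_one x p (by linarith)) (hr_half x p (by linarith)) (hr_tan x y p (by linarith) (by linarith) (by linarith)) (hr_nonneg z q (by linarith)) (hr_one z q (by linarith)) (hr_half z q (by linarith))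
        · rw [hr_sq y z (by linarith) (by linarith),
            hr_sq y p (by linarith) (by linarith),
            hr_tail y q (by linarith) (by linarith),
            hr_tail x q (by linarith) (by linarith),
            hr_sq z p (by linarith) (by linarith),
            hr_tail p q (by linarith) (by linarith)]
          exact nb_11 x y z p q (HR x y) (HR x z) (HR x p) (HR z q) (by linarith) (by linarith) (by linarith) (by linarith) (by linarith) (by linarith) (by linarith) (by linarith) (by linarith) (by linarith) (by linarith) (hr_nonneg x y (by linarith)) (hr_one x y (by linarith)) (hr_half x y (by linarith)) (hr_nonneg x z (by linarith)) (hr_one x z (by linarith)) (hr_half x z (by linarith)) (hr_tan x y z (by linarith) (by linarith) (by linarith)) (hr_nonneg x p (by linarith)) (hr_one x p (by linarith)) (hr_half x p (by linarith)) (hr_tan x y p (by linarith) (by linarith) (by linarith)) (hr_nonneg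 z q (by linarith)) (hr_one z q (by linarith)) (hr_half z q (by linarith))
      · rcases le_total y (2 * z) with kyz | kyz
        · rcases le_total p (2 * q) with kpq | kpq
          · rcases le_total x (2 * z) with kxz | kxz
            · rcases le_total x (21 / 50 * (x + y + z + p + q)) with hL2 | hL2
              · rw [hr_sq y z (by linarith) (by linarith),
                  hr_tail y p (by linarith) (by linarith),
                  hr_tail x p (by linarith) (by linarith),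
                  hr_tail y q (by linarith) (by linarith),
                  hr_tail x q (by linarith) (by linarith),
                  hr_sq p q (by linarith) (by linarith),
                  hr_sq x z (by linarith) (by linarith)]
                exact nc_201 x y z p q (HR x y) (HR z p) (HR z q) (by linarith) (by linarith) (by linarith) (by linarith) (by linarith) (by linarith) (by linarith) (by linarith) (by linarith) (by linarith) (by linarith) (by linarith) (hr_nonneg x y (by linarith)) (hr_one x y (by linarith)) (hr_half x y (by linarith)) (hr_nonneg z p (by linarith)) (hr_one z p (by linarith)) (hr_half z p (by linarith)) (hr_nonneg z q (by linarith)) (hr_one z q (by linarith)) (hr_half z q (by linarith))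
              · rw [hr_sq y z (by linarith) (by linarith),
                  hr_tail y p (by linarith) (by linarith),
                  hr_tail x p (by linarith) (by linarith),
                  hr_tail y q (by linarith) (by linarith),
                  hr_tail x q (by linarith) (by linarith),
                  hr_sq p q (by linarith) (by linarith),
                  hr_sq x z (by linarith) (by linarith)]
                exact nd_201 x y z p q (HR x y) (HR z p) (HR z q) (by linarith) (by linarith) (by linarith) (by linarith) (by linarith) (by linarith) (by linarith) (by linarith) (by linarith) (by linarith) (by linarith) (by linarith) (hr_nonneg x y (by linarith)) (hr_one x y (by linarith)) (hr_half x y (by linarith)) (hr_nonneg z p (by linarith)) (hr_one z p (by linarith)) (hr_half z p (by linarith)) (hr_nonneg z q (by linarith)) (hr_one z q (by linarith)) (hr_half z q (by linarith))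
            · rcases le_total x (21 / 50 * (x + y + z + p + q)) with hL2 | hL2
              · rw [hr_sq y z (by linarith) (by linarith),
                  hr_tail y p (by linarith) (by linarith),
                  hr_tail x p (by linarith) (by linarith),
                  hr_tail y q (by linarith) (by linarith),
                  hr_tail x q (by linarith) (by linarith),
                  hr_sq p q (by linarith) (by linarith),
                  hr_tail x z (by linarith) (by linarith)]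
                exact nc_202 x y z p q (HR x y) (HR z p) (HR z q) (by linarith) (by linarith) (by linarith) (by linarith) (by linarith) (by linarith) (by linarith) (by linarith) (by linarith) (by linarith) (by linarith) (by linarith) (hr_nonneg x y (by linarith)) (hr_one x y (by linarith)) (hr_half x y (by linarith)) (hr_nonneg z p (by linarith)) (hr_one z p (by linarith)) (hr_half z p (by linarith)) (hr_nonneg z q (by linarith)) (hr_one z q (by linarith)) (hr_half z q (by linarith))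
              · rw [hr_sq y z (by linarith) (by linarith),
                  hr_tail y p (by linarith) (by linarith),
                  hr_tail x p (by linarith) (by linarith),
                  hr_tail y q (by linarith) (by linarith),
                  hr_tail x q (by linarith) (by linarith),
                  hr_sq p q (by linarith) (by linarith),
                  hr_tail x z (by linarith) (by linarith)]
                exact nd_202 x y z p q (HR x y) (HR z p) (HR z q) (by linarith) (by linarith) (by linarith) (by linarith) (by linarith) (by linarith) (by linarith) (by linarith) (by linarith) (by linarith) (by linarith) (by linarith) (hr_nonneg x y (by linarith)) (hr_one x y (by linarith)) (hr_half x y (by linarith)) (hr_nonneg z p (by linarith)) (hr_one z p (by linarith)) (hr_half z p (by linarith)) (hr_nonneg z q (by linarith)) (hr_one z q (by linarith)) (hr_half z q (by linarith))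
          · rcases le_total x (2 * z) with kxz | kxz
            · rcases le_total x (21 / 50 * (x + y + z + p + q)) with hL2 | hL2
              · rw [hr_sq y z (by linarith) (by linarith),
                  hr_tail y p (by linarith) (by linarith),
                  hr_tail x p (by linarith) (by linarith),
                  hr_tail y q (by linarith) (by linarith),
                  hr_tail x q (by linarith) (by linarith),
                  hr_tail p q (by linarith) (by linarith),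
                  hr_sq x z (by linarith) (by linarith)]
                exact nc_211 x y z p q (HR x y) (HR z p) (HR z q) (by linarith) (by linarith) (by linarith) (by linarith) (by linarith) (by linarith) (by linarith) (by linarith) (by linarith) (by linarith) (by linarith) (by linarith) (hr_nonneg x y (by linarith)) (hr_one x y (by linarith)) (hr_half x y (by linarith)) (hr_nonneg z p (by linarith)) (hr_one z p (by linarith)) (hr_half z p (by linarith)) (hr_nonneg z q (by linarith)) (hr_one z q (by linarith)) (hr_half z q (by linarith))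
              · rw [hr_sq y z (by linarith) (by linarith),
                  hr_tail y p (by linarith) (by linarith),
                  hr_tail x p (by linarith) (by linarith),
                  hr_tail y q (by linarith) (by linarith),
                  hr_tail x q (by linarith) (by linarith),
                  hr_tail p q (by linarith) (by linarith),
                  hr_sq x z (by linarith) (by linarith)]
                exact nd_211 x y z p q (HR x y) (HR z p) (HR z q) (by linarith) (by linarith) (by linarith) (by linarith) (by linarith) (by linarith) (by linarith) (by linarith) (by linarith) (by linarith) (by linarith) (by linarith) (hr_nonneg x y (by linarith)) (hr_one x y (by linarith)) (hr_half x y (by linarith)) (hr_nonneg z p (by linarith)) (hr_one z p (by linarith)) (hr_half z p (by linarith)) (hr_nonneg z q (by linarith)) (hr_one z q (by linarith)) (hr_half z q (by linarith))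
            · rcases le_total x (21 / 50 * (x + y + z + p + q)) with hL2 | hL2
              · rw [hr_sq y z (by linarith) (by linarith),
                  hr_tail y p (by linarith) (by linarith),
                  hr_tail x p (by linarith) (by linarith),
                  hr_tail y q (by linarith) (by linarith),
                  hr_tail x q (by linarith) (by linarith),
                  hr_tail p q (by linarith) (by linarith),
                  hr_tail x z (by linarith) (by linarith)]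
                exact nc_212 x y z p q (HR x y) (HR z p) (HR z q) (by linarith) (by linarith) (by linarith) (by linarith) (by linarith) (by linarith) (by linarith) (by linarith) (by linarith) (by linarith) (by linarith) (by linarith) (hr_nonneg x y (by linarith)) (hr_one x y (by linarith)) (hr_half x y (by linarith)) (hr_nonneg z p (by linarith)) (hr_one z p (by linarith)) (hr_half z p (by linarith)) (hr_nonneg z q (by linarith)) (hr_one z q (by linarith)) (hr_half z q (by linarith))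
              · rw [hr_sq y z (by linarith) (by linarith),
                  hr_tail y p (by linarith) (by linarith),
                  hr_tail x p (by linarith) (by linarith),
                  hr_tail y q (by linarith) (by linarith),
                  hr_tail x q (by linarith) (by linarith),
                  hr_tail p q (by linarith) (by linarith),
                  hr_tail x z (by linarith) (by linarith)]
                exact nd_212 x y z p q (HR x y) (HR z p) (HR z q) (by linarith) (by linarith) (by linarith) (by linarith) (by linarith) (by linarith) (by linarith) (by linarith) (by linarith) (by linarith) (by linarith) (by linarith) (hr_nonneg x y (by linarith)) (hr_one x y (by linarith)) (hr_half x y (by linarith)) (hr_nonneg z p (by linarith)) (hr_one z p (by linarith)) (hr_half z p (by linarith)) (hr_nonneg z q (by linarith)) (hr_one z q (by linarith)) (hr_half z q (by linarith))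
        · rcases le_total p (2 * q) with kpq | kpq
          · rw [hr_tail y z (by linarith) (by linarith),
              hr_tail x z (by linarith) (by linarith),
              hr_tail y p (by linarith) (by linarith),
              hr_tail x p (by linarith) (by linarith),
              hr_tail y q (by linarith) (by linarith),
              hr_tail x q (by linarith) (by linarith),
              hr_sq p q (by linarith) (by linarith)]
            exact nb_30 x y z p q (HR x y) (HR z p) (HR z q) (by linarith) (by linarith) (by linarith) (by linarith) (by linarith) (by linarith) (by linarith) (by linarith) (by linarith) (by linarith) (by linarith) (hr_nonneg x y (by linarith)) (hr_one x y (by linarith)) (hr_half x y (by linarith)) (hr_nonneg z p (by linarith)) (hr_one z p (by linarith)) (hr_half z p (by linarith)) (hr_nonneg z q (by linarith)) (hr_one z q (by linarith)) (hr_half z q (by linarith))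
          · rw [hr_tail y z (by linarith) (by linarith),
              hr_tail x z (by linarith) (by linarith),
              hr_tail y p (by linarith) (by linarith),
              hr_tail x p (by linarith) (by linarith),
              hr_tail y q (by linarith) (by linarith),
              hr_tail x q (by linarith) (by linarith),
              hr_tail p q (by linarith) (by linarith)]
            exact nb_31 x y z p q (HR x y) (HR z p) (HR z q) (by linarith) (by linarith) (by linarith) (by linarith) (by linarith) (by linarith) (by linarith) (by linarith) (by linarith) (by linarith) (by linarith) (hr_nonneg x y (by linarith)) (hr_one x y (by linarith)) (hr_half x y (by linarith)) (hr_nonneg z p (by linarith)) (hr_one z p (by linarith)) (hr_half z p (by linarith)) (hr_nonneg z q (by linarith)) (hr_one z q (by linarith)) (hr_half z q (by linarith))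

end Pool.Agent.KE
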