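import Mathlib
import Pool.Agent.Lib_helper59.KE.Defs
import Pool.Agent.Lib_helper59.KEF.KJ
import Pool.Agent.Lib_helper59.KEF.KN
import Pool.Agent.Lib_helper59.KE2.KT

/-!
# Five levels: the E-lemma with constant `0.555`
-/

set_option autoImplicit false

namespace Pool.Agent.KE

open Finset

/-- intercepts (times 5) of the lines for at most five levels -/
def aF (e : ℕ) : ℤ :=
  if e = 2 then 32 else if e = 3 then 80 else if e = 4 then 160 else if e = 5 then 240 else 0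

/-- slopes (times 5) of the lines for at most five levels -/
def bF (e : ℕ) : ℤ := if e = 1 ∨ e = 3 then 20 else if e = 2 then 8 else 0

theorem line_five (e x y : ℕ) (hx : e ≤ x) (hy : e ≤ y) (hx5 : x ≤ 5) (hy5 : y ≤ 5) :
    aF e + bF e * |(x : ℤ) - y| ≤ 5 * (4 * e * ((x : ℤ) + y) - 2 * g4 e x y) := by
  interval_cases x <;> interval_cases y <;> interval_cases e <;>
    simp (config := { decide := true }) [aF, bF, g4, Qp]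

/-- the bound for five levels -/
theorem five_bound (M : ℕ) (f : ℤ → ℕ) (hf : ∀ i, ((2 : ℕ) : ℤ) < |i| → f i = 0)
    (hM : ∀ i, f i ≤ M) (hM2 : ∃ i, f i = M) (hM1 : 1 ≤ M)
    (b E : ℤ) (hb : b = ∑ i ∈ Icc (-((2 : ℕ) : ℤ)) ((2 : ℕ) : ℤ), (f i : ℤ))
    (hE : E = 3 * b ^ 2
        - ∑ i ∈ Icc (-((2 : ℕ) : ℤ)) ((2 : ℕ) : ℤ), ∑ j ∈ Icc (-((2 : ℕ) : ℤ)) ((2 : ℕ) : ℤ),
          Qp (f i) (f j) (f (i + j))) :
    ∃ v : ℕ → ℕ, (∀ i j, i ≤ j → v j ≤ v i) ∧ v 1 = M ∧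
      (v 1 : ℤ) + v 2 + v 3 + v 4 + v 5 = b ∧
      12 * (v 2 : ℤ) ^ 2 + 18 * (v 3 : ℤ) ^ 2 + 30 * (v 4 : ℤ) ^ 2 + 30 * (v 5 : ℤ) ^ 2
        + 15 * (HH (v 1) (v 2) + HH (v 1) (v 3) + HH (v 1) (v 4) + HH (v 1) (v 5))
        - 9 * (HH (v 2) (v 3) + HH (v 2) (v 4) + HH (v 2) (v 5))
        + 9 * (HH (v 3) (v 4) + HH (v 3) (v 5)) - 15 * HH (v 4) (v 5) ≤ 5 * E := by
  obtain ⟨hn1, hn2, hn3, hn4⟩ := nn_facts 2 M f hM
  have hanti : ∀ k l, 1 ≤ k → k ≤ l → nn 2 f l ≤ nn 2 f k := fun k l _ h => hn1 k l h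
  obtain ⟨hc1, hc2, hc3, hc4, hc5⟩ := cj_facts M (2 * 2 + 1) (nn 2 f) hanti hn2
  have hnM : 1 ≤ nn 2 f M := by
    obtain ⟨i, hi⟩ := hM2
    have h1 : |i| ≤ ((2 : ℕ) : ℤ) := by
      by_contra h
      have := hf i (not_le.1 h)
      omega
    unfold nn
    rw [Nat.one_le_iff_ne_zero, Finset.card_ne_zero]
    refine ⟨i, ?_⟩
    unfold SS
    rw [Finset.mem_filter, Finset.mem_Icc]
    exact ⟨abs_le.1 h1, hi.ge⟩
  have h2 : ∀ F : ℕ → ℤ, ∑ j ∈ Icc 1 (2 * 2 + 1), F j = F 1 + F 2 + F 3 + F 4 + F 5 := by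
    intro F
    have : Icc 1 (2 * 2 + 1) = ({1, 2, 3, 4, 5} : Finset ℕ) := by decide
    rw [this, Finset.sum_insert (by decide), Finset.sum_insert (by decide),
      Finset.sum_insert (by decide), Finset.sum_insert (by decide), Finset.sum_singleton]
    ring
  refine ⟨cj M (nn 2 f), hc1, hc5 hM1 hnM, ?_, ?_⟩
  · have h1 : ((∑ j ∈ Icc 1 (2 * 2 + 1), cj M (nn 2 f) j : ℕ) : ℤ) = b := by
      rw [hc3, hn4, hb]
      push_cast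
      rfl
    push_cast at h1
    have h3 := h2 (fun j => (cj M (nn 2 f) j : ℤ))
    rw [← h1]
    exact h3.symm
  · have h1 := kj_comb 2 M f hf hM b E hb hE 5 aF bF (by simp [aF]) (by simp [bF])
      (by
        intro e x y h1 h2 h3 h4
        exact line_five e x y h1 h2 (by omega) (by omega)) (by norm_num)
    simp only [h2] at h1
    norm_num [aF, bF] at h1
    have e0 : ∀ i j, i ≤ j → HH (cj M (nn 2 f) j) (cj M (nn 2 f) i) = 0 := fun i j hij =>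
      kj_HH_zero _ _ (by exact_mod_cast hc1 i j hij)
    rw [e0 1 1 le_rfl, e0 2 2 le_rfl, e0 3 3 le_rfl, e0 4 4 le_rfl,
      e0 1 2 (by norm_num), e0 1 3 (by norm_num), e0 1 4 (by norm_num),
      e0 2 3 (by norm_num), e0 2 4 (by norm_num),
      e0 3 4 (by norm_num)] at h1
    linarith

/-- the E-lemma for five levels -/
theorem e_lemma_five (M : ℕ) (f : ℤ → ℕ) (hf : ∀ i, ((2 : ℕ) : ℤ) < |i| → f i = 0)
    (hM : ∀ i, f i ≤ M) (b : ℤ) (hb : b = ∑ i ∈ Icc (-((2 : ℕ) : ℤ)) ((2 : ℕ) : ℤ), (f i : ℤ))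
    (h47 : 100 * (M : ℤ) ≤ 47 * b) :
    1000 * ∑ i ∈ Icc (-((2 : ℕ) : ℤ)) ((2 : ℕ) : ℤ), ∑ j ∈ Icc (-((2 : ℕ) : ℤ)) ((2 : ℕ) : ℤ),
      Qp (f i) (f j) (f (i + j)) ≤ 2445 * b ^ 2 := by
  obtain ⟨M0, hM0, hfM0, hex⟩ := kn_max 2 M f hf hM
  rcases Nat.eq_zero_or_pos M0 with h0 | hpos
  · have hz : ∀ i, f i = 0 := fun i => Nat.le_zero.1 (h0 ▸ hfM0 i)
    rw [kn_zero 2 f hz]
    positivity
  · obtain ⟨Q, hQ⟩ : ∃ Q, Q = ∑ i ∈ Icc (-((2 : ℕ) : ℤ)) ((2 : ℕ) : ℤ),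
      ∑ j ∈ Icc (-((2 : ℕ) : ℤ)) ((2 : ℕ) : ℤ), Qp (f i) (f j) (f (i + j)) := ⟨_, rfl⟩
    obtain ⟨v, hanti, hv1, hs, hC⟩ :=
      five_bound M0 f hf hfM0 hex hpos b (3 * b ^ 2 - Q) hb (by rw [hQ])
    rw [← hQ]
    have hsR : ((v 1 : ℕ) : ℝ) + (v 2 : ℕ) + (v 3 : ℕ) + (v 4 : ℕ) + (v 5 : ℕ) = (b : ℝ) := by
      exact_mod_cast hs
    have h21 : ((v 2 : ℕ) : ℝ) ≤ ((v 1 : ℕ) : ℝ) := by exact_mod_cast hanti 1 2 (by norm_num)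
    have h32 : ((v 3 : ℕ) : ℝ) ≤ ((v 2 : ℕ) : ℝ) := by exact_mod_cast hanti 2 3 (by norm_num)
    have h43 : ((v 4 : ℕ) : ℝ) ≤ ((v 3 : ℕ) : ℝ) := by exact_mod_cast hanti 3 4 (by norm_num)
    have h54 : ((v 5 : ℕ) : ℝ) ≤ ((v 4 : ℕ) : ℝ) := by exact_mod_cast hanti 4 5 (by norm_num)
    have h08 : ((v 1 : ℕ) : ℝ) ≤ 47 / 100 * (((v 1 : ℕ) : ℝ) + (v 2 : ℕ) + (v 3 : ℕ)
        + (v 4 : ℕ) + (v 5 : ℕ)) := by
      rw [hsR]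
      have h1 : 100 * ((v 1 : ℕ) : ℤ) ≤ 47 * b := by
        rw [hv1]
        have : (M0 : ℤ) ≤ (M : ℤ) := by exact_mod_cast hM0
        linarith
      have h2 : 100 * ((v 1 : ℕ) : ℝ) ≤ 47 * (b : ℝ) := by exact_mod_cast h1
      linarith
    have h1 := num_five ((v 1 : ℕ) : ℝ) ((v 2 : ℕ) : ℝ) ((v 3 : ℕ) : ℝ) ((v 4 : ℕ) : ℝ)
      ((v 5 : ℕ) : ℝ) h21 h32 h43 h54 (Nat.cast_nonneg _) h08
    rw [hsR] at h1
    have hcast : ((12 * (v 2 : ℤ) ^ 2 + 18 * (v 3 : ℤ) ^ 2 + 30 * (v 4 : ℤ) ^ 2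
        + 30 * (v 5 : ℤ) ^ 2
        + 15 * (HH (v 1) (v 2) + HH (v 1) (v 3) + HH (v 1) (v 4) + HH (v 1) (v 5))
        - 9 * (HH (v 2) (v 3) + HH (v 2) (v 4) + HH (v 2) (v 5))
        + 9 * (HH (v 3) (v 4) + HH (v 3) (v 5)) - 15 * HH (v 4) (v 5) : ℤ) : ℝ)
          ≤ ((5 * (3 * b ^ 2 - Q) : ℤ) : ℝ) := Int.cast_le.2 hC
    simp only [Int.cast_add, Int.cast_sub, Int.cast_mul, Int.cast_pow,
          Int.cast_natCast, Int.cast_ofNat, kn_HH_cast] at hcast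
    have hfin : ((1000 * Q : ℤ) : ℝ) ≤ ((2445 * b ^ 2 : ℤ) : ℝ) := by
      push_cast
      linarith
    exact Int.cast_le.1 hfin

end Pool.Agent.KE
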