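import Mathlib
import Pool.Agent.Lib_helper59.KE.Defs
import Pool.Agent.Lib_helper59.KEF.KQ
import Pool.Agent.Lib_helper59.KEF.KS
import Pool.Agent.Lib_helper59.KE2.KU

/-!
# The star for at most four levels `≠ 0`, and the core theorem with better constants for `J = 2`
-/

set_option autoImplicit false

namespace Pool.Agent.KE

open Finset Pool.Agent.Lib_helper13.PL Pool.Agent.POS

/-- a line below the cost of a level -/
theorem kv_line {w c s : ℤ} (hw : 0 ≤ w) (hc : 0 ≤ c) (hs : 3 * c ≤ s) :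
    (12 * s - 18 * c) * w - 2 * s ^ 2 + 18 * c ^ 2 ≤ 9 * kq_k w c := by
  rcases le_total (2 * w) c with h | h
  · rw [kq_small hw h]
    nlinarith [mul_nonneg hw (by linarith : 0 ≤ c - 2 * w), mul_nonneg hw hc,
      mul_nonneg (by linarith : 0 ≤ s - 3 * c) (by linarith : 0 ≤ s + 3 * c - 6 * w)]
  · rw [kq_large hc h]
    nlinarith [sq_nonneg (3 * w - s)]

/-- the other levels: at most three -/
theorem kv_rest {ι : Type*} (V : Finset ι) (hV : V.card ≤ 3) (w : ι → ℤ)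
    (hw : ∀ u ∈ V, 0 ≤ w u) (c r : ℤ) (hc : 0 ≤ c) (hr : r = ∑ u ∈ V, w u) (h3 : 3 * c ≤ r) :
    2 * r ^ 2 - 6 * r * c + 18 * c ^ 2 ≤ 3 * ∑ u ∈ V, kq_k (w u) c := by
  have h1 : ∑ u ∈ V, ((12 * r - 18 * c) * w u - (2 * r ^ 2 - 18 * c ^ 2)) ≤
      ∑ u ∈ V, 9 * kq_k (w u) c :=
    Finset.sum_le_sum fun u hu => by
      have := kv_line (hw u hu) hc h3
      linarith
  rw [Finset.sum_sub_distrib, ← Finset.mul_sum, ← hr, Finset.sum_const, nsmul_eq_mul,
    ← Finset.mul_sum] at h1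
  have h2 : (V.card : ℤ) ≤ 3 := by exact_mod_cast hV
  have h4 : 0 ≤ 2 * r ^ 2 - 18 * c ^ 2 := by nlinarith
  have h5 := mul_le_mul_of_nonneg_right h2 h4
  nlinarith

/-- the star for at most four levels -/
theorem num_star5 {ι : Type*} [DecidableEq ι] (U : Finset ι) (hU : U.card ≤ 4) (w : ι → ℤ)
    (hw : ∀ u ∈ U, 0 ≤ w u)
    (c b : ℤ) (hc : 0 ≤ c) (hb : b = c + ∑ u ∈ U, w u) (h43 : 4 * c ≤ 3 * b)
    (hbig : 47 * b ≤ 100 * c ∨ ∃ u ∈ U, 47 * b ≤ 100 * w u) :
    45 * b ^ 2 ≤ 100 * ∑ u ∈ U, (2 * w u ^ 2 + 6 * w u * c - 2 * Qp (w u) c (w u)) := by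
  change 45 * b ^ 2 ≤ 100 * ∑ u ∈ U, kq_k (w u) c
  have hsum0 : 0 ≤ ∑ u ∈ U, w u := Finset.sum_nonneg hw
  have hb0 : 0 ≤ b := by linarith
  have key : ∀ u ∈ U, c ≤ w u → 47 * b ≤ 100 * w u →
      45 * b ^ 2 ≤ 100 * ∑ u ∈ U, kq_k (w u) c := by
    intro u hu hcu hbu
    obtain ⟨h1, h2⟩ := kq_max U w hw c b hc hb u hu hcu
    have h3 := Finset.add_sum_erase U (fun v => kq_k (w v) c) hu
    have h4 := Finset.add_sum_erase U w hu
    have h5 := kq_large hc (by linarith [hw u hu] : c ≤ 2 * w u)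
    rw [h5] at h3
    obtain ⟨M, hM⟩ : ∃ M, M = w u := ⟨_, rfl⟩
    obtain ⟨T, hT⟩ : ∃ T, T = ∑ u ∈ U, kq_k (w u) c := ⟨_, rfl⟩
    rw [← hM] at h1 h2 h3 h4 hbu hcu
    rw [← hT] at h1 h3 ⊢
    have hr : b - c - M = ∑ v ∈ U.erase u, w v := by linarith
    rcases le_total (b - c - M) (3 * c) with h6 | h6
    · rcases le_total (2 * M) b with h7 | h7
      · nlinarith [mul_nonneg (by linarith : 0 ≤ 4 * c - (b - M)) (by linarith : 0 ≤ b - 2 * M),
          mul_nonneg (by linarith : 0 ≤ 100 * M - 47 * b) hb0,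
          mul_nonneg (by linarith : 0 ≤ 100 * M - 47 * b) (by linarith : 0 ≤ 100 * M - 47 * b)]
      · nlinarith [mul_nonneg (by linarith : 0 ≤ b - M - c) (by linarith : 0 ≤ 2 * M - b),
          sq_nonneg (2 * M - b), sq_nonneg b]
    · have hV : (U.erase u).card ≤ 3 := by
        have := Finset.card_erase_add_one hu
        omega
      have h7 := kv_rest (U.erase u) hV w (fun v hv => hw v (Finset.mem_of_mem_erase hv)) c
        (b - c - M) hc hr h6
      nlinarith [sq_nonneg (32 * c - 5 * b + 2 * M),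
        mul_nonneg (by linarith : 0 ≤ 100 * M - 47 * b) hb0,
        mul_nonneg (by linarith : 0 ≤ 100 * M - 47 * b) (by linarith : 0 ≤ 100 * M - 47 * b)]
  by_cases hex : ∃ u ∈ U, c ≤ w u ∧ 47 * b ≤ 100 * w u
  · obtain ⟨u, hu, h1, h2⟩ := hex
    exact key u hu h1 h2
  have hcb : 47 * b ≤ 100 * c := by
    rcases hbig with h | ⟨u, hu, h⟩
    · exact h
    · by_contra hlt
      exact hex ⟨u, hu, by linarith, h⟩
  obtain ⟨h1, h2⟩ := kq_c U w hw c b hc hb
  rcases le_total (100 * c) (65 * b) with h3 | h3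
  · nlinarith [mul_nonneg (by linarith : 0 ≤ 100 * c - 47 * b) (by linarith : 0 ≤ 65 * b - 100 * c),
      mul_nonneg hb0 (by linarith : 0 ≤ 65 * b - 100 * c)]
  · nlinarith [mul_nonneg (by linarith : 0 ≤ 100 * c - 65 * b) (by linarith : 0 ≤ 3 * b - 4 * c),
      mul_nonneg hb0 hc, sq_nonneg b]

variable {G : Type*} [AddCommGroup G] [DecidableEq G]

/-- no alive bonus, `J ≥ 2` : the core with better constants for `J = 2` -/
theorem no_bonus_core2 {m : ℕ} [NeZero m] (chi : G →+ ZMod m) (B : Finset G) (hB : NoWrap chi B)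
    (h43 : 4 * (lev chi B 0).card ≤ 3 * B.card) (K' : ℤ) (hK : 0 ≤ K')
    (hnb : ∀ u v : ZMod m, 4 * TT (lev chi B u) (lev chi B v) (lev chi B (u + v))
      ≤ Qp (lev chi B u).card (lev chi B v).card (lev chi B (u + v)).card + K' ^ 2)
    (J : ℕ) (hJ : J = (m - 1) / 3) (hJ2 : 2 ≤ J) (b F : ℤ) (hb : b = B.card) (hF : F = GL.FF B) :
    (J = 2 ∧ 1000 * F ≤ -555 * b ^ 2 + 19000 * K' ^ 2) ∨
      (J = 2 ∧ 100 * F ≤ -45 * b ^ 2 + 900 * K' ^ 2) ∨
    (3 ≤ J ∧ 10000 * F ≤ -5115 * b ^ 2 + 10000 * (3 * J ^ 2 + 3 * J + 1) * K' ^ 2) ∨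
      (3 ≤ J ∧ 10000 * F ≤ -4195 * b ^ 2 + 10000 * (4 * J + 1) * K' ^ 2) := by
  rcases Nat.lt_or_ge J 3 with hJ3 | hJ3
  swap
  · rcases no_bonus_core chi B hB h43 K' hK hnb J hJ b F hb hF with h | h | h | h | h
    · exact Or.inr (Or.inr (Or.inl ⟨hJ3, h.2⟩))
    · exact Or.inr (Or.inr (Or.inr ⟨hJ3, h.2⟩))
    · omega
    · omega
    · right; right; left
      refine ⟨hJ3, ?_⟩
      obtain ⟨h1, h2⟩ := h
      rw [h1]
      have : (0 : ℤ) ≤ 10000 * (3 * J ^ 2 + 3 * J + 1) * K' ^ 2 := by positivity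
      linarith
  have hJ22 : J = 2 := by omega
  subst hb hF
  have hf : ∀ i : ℤ, (J : ℤ) < |i| → ks_f chi B J i = 0 := by
    intro i hi
    unfold ks_f
    rw [if_neg (not_le.2 hi)]
  have hb : (B.card : ℤ) = ∑ i ∈ Icc (-(J : ℤ)) J, (ks_f chi B J i : ℤ) := by
    rw [card_levels chi B hB J hJ]
    refine Finset.sum_congr rfl fun i hi => ?_
    rw [Finset.mem_Icc] at hi
    rw [ks_f, if_pos (abs_le.2 hi)]
  have hff := ks_ff chi B hB J hJ K' hnb
  have hst := star_bound chi B hB J hJ K' hnb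
  have hcard := ks_card chi B
  have h43' : 4 * ((lev chi B 0).card : ℤ) ≤ 3 * (B.card : ℤ) := by exact_mod_cast h43
  have himg := image_card chi B hB J hJ
  by_cases hM : ∀ i, ks_f chi B J i ≤ 47 * B.card / 100
  · left
    refine ⟨hJ22, ?_⟩
    subst hJ22
    have h := e_lemma_five (47 * B.card / 100) (ks_f chi B 2) hf hM (B.card : ℤ) hb
      (by
        have : 100 * (47 * B.card / 100) ≤ 47 * B.card := Nat.mul_div_le _ _
        exact_mod_cast this)
    push_cast at hff h ⊢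
    linarith
  · right; left
    refine ⟨hJ22, ?_⟩
    push Not at hM
    obtain ⟨i, hi⟩ := hM
    have hbig : 47 * (B.card : ℤ) ≤ 100 * ((lev chi B 0).card : ℤ) ∨
        ∃ u ∈ (B.image chi).erase 0, 47 * (B.card : ℤ) ≤ 100 * ((lev chi B u).card : ℤ) := by
      rcases ks_big chi B J i _ hi with h | ⟨u, hu, h⟩
      · left
        have : 47 * B.card ≤ 100 * (lev chi B 0).card := by omega
        exact_mod_cast this
      · right
        refine ⟨u, hu, ?_⟩
        have : 47 * B.card ≤ 100 * (lev chi B u).card := by omega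
        exact_mod_cast this
    have h := num_star5 ((B.image chi).erase 0) (by omega) (fun u => ((lev chi B u).card : ℤ))
      (fun u _ => by positivity) ((lev chi B 0).card : ℤ) (B.card : ℤ) (by positivity)
      hcard h43' hbig
    subst hJ22
    push_cast at hst ⊢
    linarith

end Pool.Agent.KE
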