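import Mathlib

/-!
# The real inequalities for sets with outer elements
-/

set_option autoImplicit false

namespace Pool.Agent.KE

/-- the quadratic in `ω` -/
theorem kx_core (D σ σ0 a κ ρ u ω : ℝ) (hD : 0 < D) (hκ : 0 < κ) (hω : 0 ≤ ω)
    (hσ0 : 0 < σ0) (hσ : σ0 ≤ σ) (hρ : ρ ^ 2 ≤ 4 * κ * σ0)
    (hDa : 14 / 5 * (1 + u) < D * (a + ρ))
    (h : D * (σ + a * ω + κ * ω ^ 2) ≤ 14 / 5 * ω * (1 + u)) : False := by
  have h1 : 0 ≤ 4 * κ * (σ0 + κ * ω ^ 2 - ρ * ω) := by nlinarith [sq_nonneg (2 * κ * ω - ρ)]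
  have h2 : 0 ≤ σ0 + κ * ω ^ 2 - ρ * ω := nonneg_of_mul_nonneg_right h1 (by linarith)
  have h3 : D * ((a + ρ) * ω) ≤ D * (σ + a * ω + κ * ω ^ 2) :=
    mul_le_mul_of_nonneg_left (by linarith) hD.le
  rcases hω.eq_or_lt with h0 | h0
  · rw [← h0] at h
    have : 0 < D * σ := mul_pos hD (by linarith)
    nlinarith
  · have h4 := mul_lt_mul_of_pos_right hDa h0
    nlinarith

/-- the lower bound for `σ` -/
theorem kx_sigma (c0 γ σ0 f t : ℝ) (hγ0 : 0 ≤ γ) (hγ : γ < 12) (h3 : -1 / 3 < f)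
    (ht0 : 0 ≤ t) (ht2 : 1 / 2 ≤ t → (2 * t - 1) * (6 * t - 5) < f)
    (h1 : σ0 ≤ c0 - 1 / 3 - γ / 4) (h2 : 64 ≤ (12 - γ) * (c0 + 5 - σ0)) :
    σ0 ≤ c0 + f - γ * t ^ 2 := by
  rcases le_or_gt (1 / 2) t with h | h
  · have h4 := ht2 h
    have h5 : 0 ≤ (12 - γ) * (c0 + (2 * t - 1) * (6 * t - 5) - γ * t ^ 2 - σ0) := by
      nlinarith [sq_nonneg ((12 - γ) * t - 8)]
    have h6 := nonneg_of_mul_nonneg_right h5 (by linarith)
    linarith
  · have h4 : t ^ 2 ≤ 1 / 4 := by nlinarith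
    nlinarith

/-- (A) `c0 = 0.555`, `γ = 19/49` -/
theorem kx_A (β f ω t : ℝ) (hβ0 : 0 < β) (hβ : β ≤ 9 / 20) (hω : 0 ≤ ω) (ht0 : 0 ≤ t)
    (ht : t < 5 / 6) (h3 : -1 / 3 < f) (ht2 : 1 / 2 ≤ t → (2 * t - 1) * (6 * t - 5) < f)
    (hβf : -4 / 5 < 49 * β ^ 2 * f)
    (H : (1 - β) * (f + 111 / 200 * (1 - ω) ^ 2 - 19 / 49 * t ^ 2 + 13 / 5 * ω ^ 2 + 26 / 5 * ω)
      ≤ 14 / 5 * ω * (1 - f)) : False := by
  have H' : (1 - β) * ((111 / 200 + f - 19 / 49 * t ^ 2) + 409 / 100 * ω + 631 / 200 * ω ^ 2)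
      ≤ 14 / 5 * ω * (1 + -f) := by
    calc _ = (1 - β) * (f + 111 / 200 * (1 - ω) ^ 2 - 19 / 49 * t ^ 2 + 13 / 5 * ω ^ 2
        + 26 / 5 * ω) := by ring
      _ ≤ _ := by linarith
  have hs1 := kx_sigma (111 / 200) (19 / 49) (87 / 2000) f t (by norm_num) (by norm_num) h3 ht0 ht2
    (by norm_num) (by norm_num)
  have ht3 : t ^ 2 ≤ 25 / 36 := by nlinarith
  have hD : 0 < 1 - β := by linarith
  obtain ⟨u, hu⟩ : ∃ u, u = -f := ⟨_, rfl⟩
  have hfu : f = -u := by linarith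
  rw [hfu] at H' hs1 hβf h3
  rw [neg_neg] at H'
  rcases le_total u (9 / 100) with c1 | c1
  · refine kx_core (1 - β) _ (195 / 1000) _ _ (156 / 100) u ω hD (by norm_num) hω (by norm_num)
      (by linarith) (by norm_num) (by nlinarith) H'
  rcases le_total u (12 / 100) with c2 | c2
  · have hb : β < 427 / 1000 := by
      by_contra hh
      push Not at hh
      have : (427 / 1000) ^ 2 ≤ β ^ 2 := pow_le_pow_left₀ (by norm_num) hh 2
      nlinarith
    refine kx_core (1 - β) _ (165 / 1000) _ _ (144 / 100) u ω hD (by norm_num) hω (by norm_num)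
      (by linarith) (by norm_num) (by nlinarith) H'
  rcases le_total u (15 / 100) with c3 | c3
  · have hb : β < 37 / 100 := by
      by_contra hh
      push Not at hh
      have : (37 / 100) ^ 2 ≤ β ^ 2 := pow_le_pow_left₀ (by norm_num) hh 2
      nlinarith
    refine kx_core (1 - β) _ (135 / 1000) _ _ (130 / 100) u ω hD (by norm_num) hω (by norm_num)
      (by linarith) (by norm_num) (by nlinarith) H'
  rcases le_total u (20 / 100) with c4 | c4
  · have hb : β < 331 / 1000 := by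
      by_contra hh
      push Not at hh
      have : (331 / 1000) ^ 2 ≤ β ^ 2 := pow_le_pow_left₀ (by norm_num) hh 2
      nlinarith
    refine kx_core (1 - β) _ (85 / 1000) _ _ (103 / 100) u ω hD (by norm_num) hω (by norm_num)
      (by linarith) (by norm_num) (by nlinarith) H'
  · have hb : β < 3845 / 10000 - 48 / 100 * u := by
      by_contra hh
      push Not at hh
      have h0 : 0 ≤ 3845 / 10000 - 48 / 100 * u := by linarith
      have h4 : (3845 / 10000 - 48 / 100 * u) ^ 2 ≤ β ^ 2 := pow_le_pow_left₀ h0 hh 2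
      have h5 : u * (3845 / 10000 - 48 / 100 * u) ^ 2 ≤ u * β ^ 2 :=
        mul_le_mul_of_nonneg_left h4 (by linarith)
      nlinarith [mul_nonneg (mul_nonneg (by linarith : 0 ≤ u - 1 / 5) (by linarith : 0 ≤ 1 / 3 - u))
        (by linarith : 0 ≤ 1 / 3 - u), mul_nonneg (mul_nonneg (by linarith : 0 ≤ u - 1 / 5)
        (by linarith : 0 ≤ 1 / 3 - u)) (by linarith : 0 ≤ u - 1 / 5)]
    refine kx_core (1 - β) _ (87 / 2000) _ _ (740 / 1000) u ω hD (by norm_num) hω (by norm_num)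
      (by linarith) (by norm_num) (by nlinarith) H'

/-- (B) `c0 = 0.45`, `γ = 9/49` -/
theorem kx_B (β f ω t : ℝ) (hβ0 : 0 < β) (hβ : β ≤ 9 / 20) (hω : 0 ≤ ω) (ht0 : 0 ≤ t)
    (ht : t < 5 / 6) (h3 : -1 / 3 < f) (ht2 : 1 / 2 ≤ t → (2 * t - 1) * (6 * t - 5) < f)
    (hβf : -4 / 5 < 49 * β ^ 2 * f)
    (H : (1 - β) * (f + 45 / 100 * (1 - ω) ^ 2 - 9 / 49 * t ^ 2 + 13 / 5 * ω ^ 2 + 26 / 5 * ω)
      ≤ 14 / 5 * ω * (1 - f)) : False := by
  have H' : (1 - β) * ((45 / 100 + f - 9 / 49 * t ^ 2) + 43 / 10 * ω + 305 / 100 * ω ^ 2)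
      ≤ 14 / 5 * ω * (1 + -f) := by
    calc _ = (1 - β) * (f + 45 / 100 * (1 - ω) ^ 2 - 9 / 49 * t ^ 2 + 13 / 5 * ω ^ 2
        + 26 / 5 * ω) := by ring
      _ ≤ _ := by linarith
  have hs1 := kx_sigma (45 / 100) (9 / 49) (337 / 10000) f t (by norm_num) (by norm_num) h3 ht0 ht2
    (by norm_num) (by norm_num)
  have ht3 : t ^ 2 ≤ 25 / 36 := by nlinarith
  have hD : 0 < 1 - β := by linarith
  obtain ⟨u, hu⟩ : ∃ u, u = -f := ⟨_, rfl⟩
  have hfu : f = -u := by linarith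
  rw [hfu] at H' hs1 hβf h3
  rw [neg_neg] at H'
  rcases le_total u (10 / 100) with c1 | c1
  · refine kx_core (1 - β) _ (222 / 1000) _ _ (164 / 100) u ω hD (by norm_num) hω (by norm_num)
      (by linarith) (by norm_num) (by nlinarith) H'
  rcases le_total u (15 / 100) with c3 | c3
  · have hb : β < 405 / 1000 := by
      by_contra hh
      push Not at hh
      have : (405 / 1000) ^ 2 ≤ β ^ 2 := pow_le_pow_left₀ (by norm_num) hh 2
      nlinarith
    refine kx_core (1 - β) _ (172 / 1000) _ _ (144 / 100) u ω hD (by norm_num) hω (by norm_num)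
      (by linarith) (by norm_num) (by nlinarith) H'
  rcases le_total u (20 / 100) with c4 | c4
  · have hb : β < 331 / 1000 := by
      by_contra hh
      push Not at hh
      have : (331 / 1000) ^ 2 ≤ β ^ 2 := pow_le_pow_left₀ (by norm_num) hh 2
      nlinarith
    refine kx_core (1 - β) _ (122 / 1000) _ _ (121 / 100) u ω hD (by norm_num) hω (by norm_num)
      (by linarith) (by norm_num) (by nlinarith) H'
  · have hb : β < 3845 / 10000 - 48 / 100 * u := by
      by_contra hh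
      push Not at hh
      have h0 : 0 ≤ 3845 / 10000 - 48 / 100 * u := by linarith
      have h4 : (3845 / 10000 - 48 / 100 * u) ^ 2 ≤ β ^ 2 := pow_le_pow_left₀ h0 hh 2
      have h5 : u * (3845 / 10000 - 48 / 100 * u) ^ 2 ≤ u * β ^ 2 :=
        mul_le_mul_of_nonneg_left h4 (by linarith)
      nlinarith [mul_nonneg (mul_nonneg (by linarith : 0 ≤ u - 1 / 5) (by linarith : 0 ≤ 1 / 3 - u))
        (by linarith : 0 ≤ 1 / 3 - u), mul_nonneg (mul_nonneg (by linarith : 0 ≤ u - 1 / 5)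
        (by linarith : 0 ≤ 1 / 3 - u)) (by linarith : 0 ≤ u - 1 / 5)]
    refine kx_core (1 - β) _ (337 / 10000) _ _ (640 / 1000) u ω hD (by norm_num) hω (by norm_num)
      (by linarith) (by norm_num) (by nlinarith) H'

/-- (C) `c0 = 0.5115`, `γ = 0.37` -/
theorem kx_C (β f ω t : ℝ) (hβ0 : 0 < β) (hβ : β ≤ 9 / 20) (hω : 0 ≤ ω) (ht0 : 0 ≤ t)
    (ht : t < 5 / 6) (h3 : -1 / 3 < f) (ht2 : 1 / 2 ≤ t → (2 * t - 1) * (6 * t - 5) < f)
    (hβf : -4 / 5 < 100 * β ^ 2 * f)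
    (H : (1 - β) * (f + 5115 / 10000 * (1 - ω) ^ 2 - 37 / 100 * t ^ 2 + 13 / 5 * ω ^ 2 + 26 / 5 * ω)
      ≤ 14 / 5 * ω * (1 - f)) : False := by
  have H' : (1 - β) * ((5115 / 10000 + f - 37 / 100 * t ^ 2) + 4177 / 1000 * ω
      + 31115 / 10000 * ω ^ 2) ≤ 14 / 5 * ω * (1 + -f) := by
    calc _ = (1 - β) * (f + 5115 / 10000 * (1 - ω) ^ 2 - 37 / 100 * t ^ 2 + 13 / 5 * ω ^ 2
        + 26 / 5 * ω) := by ring
      _ ≤ _ := by linarith
  have hs1 := kx_sigma (5115 / 10000) (37 / 100) (84 / 10000) f t (by norm_num) (by norm_num) h3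
    ht0 ht2 (by norm_num) (by norm_num)
  have ht3 : t ^ 2 ≤ 25 / 36 := by nlinarith
  have hD : 0 < 1 - β := by linarith
  obtain ⟨u, hu⟩ : ∃ u, u = -f := ⟨_, rfl⟩
  have hfu : f = -u := by linarith
  rw [hfu] at H' hs1 hβf h3
  rw [neg_neg] at H'
  rcases le_total u (5 / 100) with c1 | c1
  · refine kx_core (1 - β) _ (204 / 1000) _ _ (159 / 100) u ω hD (by norm_num) hω (by norm_num)
      (by linarith) (by norm_num) (by nlinarith) H'
  rcases le_total u (10 / 100) with c3 | c3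
  · have hb : β < 401 / 1000 := by
      by_contra hh
      push Not at hh
      have : (401 / 1000) ^ 2 ≤ β ^ 2 := pow_le_pow_left₀ (by norm_num) hh 2
      nlinarith
    refine kx_core (1 - β) _ (154 / 1000) _ _ (138 / 100) u ω hD (by norm_num) hω (by norm_num)
      (by linarith) (by norm_num) (by nlinarith) H'
  rcases le_total u (15 / 100) with c4 | c4
  · have hb : β < 284 / 1000 := by
      by_contra hh
      push Not at hh
      have : (284 / 1000) ^ 2 ≤ β ^ 2 := pow_le_pow_left₀ (by norm_num) hh 2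
      nlinarith
    refine kx_core (1 - β) _ (84 / 10000) _ _ (323 / 1000) u ω hD (by norm_num) hω (by norm_num)
      (by linarith) (by norm_num) (by nlinarith) H'
  rcases le_total u (20 / 100) with c4 | c4
  · have hb : β < 232 / 1000 := by
      by_contra hh
      push Not at hh
      have : (232 / 1000) ^ 2 ≤ β ^ 2 := pow_le_pow_left₀ (by norm_num) hh 2
      nlinarith
    refine kx_core (1 - β) _ (84 / 10000) _ _ (323 / 1000) u ω hD (by norm_num) hω (by norm_num)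
      (by linarith) (by norm_num) (by nlinarith) H'
  · have hb : β < 27 / 100 - 34 / 100 * u := by
      by_contra hh
      push Not at hh
      have h0 : 0 ≤ 27 / 100 - 34 / 100 * u := by linarith
      have h4 : (27 / 100 - 34 / 100 * u) ^ 2 ≤ β ^ 2 := pow_le_pow_left₀ h0 hh 2
      have h5 : u * (27 / 100 - 34 / 100 * u) ^ 2 ≤ u * β ^ 2 :=
        mul_le_mul_of_nonneg_left h4 (by linarith)
      nlinarith [mul_nonneg (mul_nonneg (by linarith : 0 ≤ u - 1 / 5) (by linarith : 0 ≤ 1 / 3 - u))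
        (by linarith : 0 ≤ 1 / 3 - u), mul_nonneg (mul_nonneg (by linarith : 0 ≤ u - 1 / 5)
        (by linarith : 0 ≤ 1 / 3 - u)) (by linarith : 0 ≤ u - 1 / 5)]
    refine kx_core (1 - β) _ (84 / 10000) _ _ (323 / 1000) u ω hD (by norm_num) hω (by norm_num)
      (by linarith) (by norm_num) (by nlinarith) H'

/-- (D) `c0 = 0.4195`, `γ = 0.13` -/
theorem kx_D (β f ω t : ℝ) (hβ0 : 0 < β) (hβ : β ≤ 9 / 20) (hω : 0 ≤ ω) (ht0 : 0 ≤ t)
    (ht : t < 5 / 6) (h3 : -1 / 3 < f) (ht2 : 1 / 2 ≤ t → (2 * t - 1) * (6 * t - 5) < f)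
    (hβf : -4 / 5 < 100 * β ^ 2 * f)
    (H : (1 - β) * (f + 4195 / 10000 * (1 - ω) ^ 2 - 13 / 100 * t ^ 2 + 13 / 5 * ω ^ 2 + 26 / 5 * ω)
      ≤ 14 / 5 * ω * (1 - f)) : False := by
  have H' : (1 - β) * ((4195 / 10000 + f - 13 / 100 * t ^ 2) + 4361 / 1000 * ω
      + 30195 / 10000 * ω ^ 2) ≤ 14 / 5 * ω * (1 + -f) := by
    calc _ = (1 - β) * (f + 4195 / 10000 * (1 - ω) ^ 2 - 13 / 100 * t ^ 2 + 13 / 5 * ω ^ 2
        + 26 / 5 * ω) := by ring
      _ ≤ _ := by linarith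
  have hs1 := kx_sigma (4195 / 10000) (13 / 100) (277 / 10000) f t (by norm_num) (by norm_num) h3
    ht0 ht2 (by norm_num) (by norm_num)
  have ht3 : t ^ 2 ≤ 25 / 36 := by nlinarith
  have hD : 0 < 1 - β := by linarith
  obtain ⟨u, hu⟩ : ∃ u, u = -f := ⟨_, rfl⟩
  have hfu : f = -u := by linarith
  rw [hfu] at H' hs1 hβf h3
  rw [neg_neg] at H'
  rcases le_total u (8 / 100) with c1 | c1
  · refine kx_core (1 - β) _ (249 / 1000) _ _ (173 / 100) u ω hD (by norm_num) hω (by norm_num)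
      (by linarith) (by norm_num) (by nlinarith) H'
  rcases le_total u (15 / 100) with c3 | c3
  · have hb : β < 318 / 1000 := by
      by_contra hh
      push Not at hh
      have : (318 / 1000) ^ 2 ≤ β ^ 2 := pow_le_pow_left₀ (by norm_num) hh 2
      nlinarith
    refine kx_core (1 - β) _ (277 / 10000) _ _ (578 / 1000) u ω hD (by norm_num) hω (by norm_num)
      (by linarith) (by norm_num) (by nlinarith) H'
  · have hb : β < 232 / 1000 := by
      by_contra hh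
      push Not at hh
      have : (232 / 1000) ^ 2 ≤ β ^ 2 := pow_le_pow_left₀ (by norm_num) hh 2
      nlinarith
    refine kx_core (1 - β) _ (277 / 10000) _ _ (578 / 1000) u ω hD (by norm_num) hω (by norm_num)
      (by linarith) (by norm_num) (by nlinarith) H'

end Pool.Agent.KE
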