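import Mathlib
import Pool.Agent.Lib_helper59.KE2.KV
import Pool.Agent.Lib_helper59.KE2.KX
import Pool.Agent.Lib_helper59.NEG.Wit
import Pool.Agent.Lib_helper59.NEG.Main

/-!
# Sets with outer elements, no alive bonus
-/

set_option autoImplicit false

namespace Pool.Agent.KE

open Finset Pool.Agent.Lib_helper13.PL Pool.Agent.POS Pool.Agent.GL Pool.Agent.NEG

/-- the removal inequality combined with the Fourier bound -/
theorem ky_combine (b n w F F' R : ℝ) (hb : 0 < b) (hn : b < n) (hw0 : 0 ≤ w)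
    (hrem : F ≤ F' - (56 / 5 * R - 6 * b) * w - 13 / 5 * w ^ 2)
    (hfou : n * (F + 3 * b ^ 2) ≤ 4 * b ^ 3 + 4 * R * (n * b - b ^ 2)) :
    (1 - b / n) * (F / b ^ 2 - F' / b ^ 2 + 13 / 5 * (w / b) ^ 2 + 26 / 5 * (w / b))
      ≤ 14 / 5 * (w / b) * (1 - F / b ^ 2) := by
  have hn0 : 0 < n := by linarith
  have key : (n - b) * b * (F - F') + 13 / 5 * (n - b) * b * w ^ 2 + 26 / 5 * (n - b) * b ^ 2 * w
      ≤ 14 / 5 * w * n * (b ^ 2 - F) := by
    have h1 := mul_le_mul_of_nonneg_left hrem (mul_nonneg (by linarith : 0 ≤ n - b) hb.le)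
    have h2 := mul_le_mul_of_nonneg_left hfou (mul_nonneg (by norm_num : (0:ℝ) ≤ 14 / 5) hw0)
    nlinarith
  have e1 : (1 - b / n) * (F / b ^ 2 - F' / b ^ 2 + 13 / 5 * (w / b) ^ 2 + 26 / 5 * (w / b))
      = ((n - b) * b * (F - F') + 13 / 5 * (n - b) * b * w ^ 2 + 26 / 5 * (n - b) * b ^ 2 * w)
        / (n * b ^ 3) := by
    field_simp
  have e2 : 14 / 5 * (w / b) * (1 - F / b ^ 2) = (14 / 5 * w * n * (b ^ 2 - F)) / (n * b ^ 3) := by
    field_simp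
  rw [e1, e2]
  exact div_le_div_of_nonneg_right key (by positivity)

/-- the kernel of a character of order `m` -/
theorem ky_ker {G : Type*} [AddCommGroup G] [Finite G] {m : ℕ} [NeZero m]
    (chi : G →+ ZMod m) (hchi : Function.Surjective chi) :
    Nat.card G = m * Nat.card chi.ker ∧ Alive chi.ker m := by
  constructor
  · have h1 := AddSubgroup.card_eq_card_quotient_mul_card_addSubgroup chi.ker
    have h2 : Nat.card (G ⧸ chi.ker) = m := by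
      rw [Nat.card_congr (QuotientAddGroup.quotientKerEquivOfSurjective chi hchi).toEquiv,
        Nat.card_zmod]
    rw [h1, h2]
  · obtain ⟨g, hg⟩ := hchi 1
    refine ⟨g, fun i h0 h1 h2 => ?_⟩
    rw [AddMonoidHom.mem_ker, map_nsmul, hg, nsmul_eq_mul, mul_one] at h2
    have h4 := (ZMod.natCast_eq_zero_iff i m).1 h2
    exact absurd (Nat.le_of_dvd h0 h4) (by omega)

/-- the witness given by the kernel -/
theorem ky_wit {G : Type*} [AddCommGroup G] [Finite G] {m : ℕ} [NeZero m]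
    (chi : G →+ ZMod m) (hchi : Function.Surjective chi) {b : ℕ} (hβ : 3 * b < 2 * Nat.card G) :
    ∃ v, W G b v ∧ -4 * (Nat.card G : ℤ) ^ 2 ≤ 5 * (m : ℤ) ^ 2 * v := by
  obtain ⟨h1, h2⟩ := ky_ker chi hchi
  have hal : Al b chi.ker := by
    by_contra hd
    have h3 := dead_ge hd h2
    have h4 : 2 * m ≤ 3 * (m - m / 3) := by omega
    have h5 : 2 * m * Nat.card chi.ker ≤ 3 * (m - m / 3) * Nat.card chi.ker :=
      Nat.mul_le_mul_right _ h4
    rw [h1] at hβ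
    nlinarith
  obtain ⟨v, hv, hv5⟩ := al_val hal
  refine ⟨v, hv, ?_⟩
  have h6 : (Nat.card G : ℤ) = m * Nat.card chi.ker := by exact_mod_cast h1
  rw [h6]
  have h7 : (0 : ℤ) ≤ (m : ℤ) ^ 2 := by positivity
  nlinarith [mul_le_mul_of_nonneg_left hv5 h7]

theorem ky_q1 (J : ℝ) (h : 3 ≤ J) : 3 * J ^ 2 + 3 * J + 1 ≤ 37 / 100 * (3 * J + 1) ^ 2 := by
  nlinarith

theorem ky_q2 (J : ℝ) (h : 3 ≤ J) : 4 * J + 1 ≤ 13 / 100 * (3 * J + 1) ^ 2 := by
  nlinarith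

/-- **sets with outer elements, no alive bonus** (`B' = B` minus the outer part) -/
theorem outer_no_bonus {G : Type*} [AddCommGroup G] [Fintype G] [DecidableEq G] {m : ℕ} [NeZero m]
    (hm : 7 ≤ m) (chi : G →+ ZMod m) (hchi : Function.Surjective chi) (B B' : Finset G) (w : ℕ)
    (hw : B'.card + w = B.card) (hB' : NoWrap chi B')
    (h43 : 4 * (lev chi B' 0).card ≤ 3 * B'.card) (R : ℝ)
    (hrem : (GL.FF B : ℝ) ≤ GL.FF B' - (56 / 5 * R - 6 * B.card) * w - 13 / 5 * (w : ℝ) ^ 2)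
    (hfou : (Nat.card G : ℝ) * (GL.FF B + 3 * (B.card : ℝ) ^ 2) ≤
      4 * (B.card : ℝ) ^ 3 + 4 * R * (Nat.card G * B.card - (B.card : ℝ) ^ 2))
    (hβ : 20 * B.card ≤ 9 * Nat.card G) (K' E : ℕ) (hE : m ≤ E) (H : AddSubgroup G)
    (hHc : Nat.card H = E * K') (h56 : 6 * (E * K') < 5 * B.card)
    (hnb : ∀ u v : ZMod m, 4 * TT (lev chi B' u) (lev chi B' v) (lev chi B' (u + v))
      ≤ Qp (lev chi B' u).card (lev chi B' v).card (lev chi B' (u + v)).card + (K' : ℤ) ^ 2) :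
    Bd G B.card (GL.FF B) := by
  by_contra hnot
  have hW : ∀ v, W G B.card v → v < GL.FF B := by
    intro v hv
    by_contra hh
    exact hnot ⟨v, hv, not_lt.1 hh⟩
  have hb0 : 0 < B.card := by omega
  have hbn : B.card < Nat.card G := by omega
  have hHne : H ≠ ⊤ := by
    rintro rfl
    rw [AddSubgroup.card_top] at hHc
    omega
  -- the three lower bounds
  obtain ⟨v1, hv1, hv1'⟩ := third hbn
  have l1 := hW v1 hv1
  obtain ⟨v2, hv2, hv2'⟩ := ky_wit chi hchi (b := B.card) (by omega)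
  have l2 := hW v2 hv2
  have l3 : B.card ≤ 2 * (E * K') →
      (2 * ((E * K' : ℕ) : ℤ) - B.card) * (6 * ((E * K' : ℕ) : ℤ) - 5 * B.card) < GL.FF B := by
    intro h
    have := hW _ (WII_above (K := H) hHne (b := B.card) (by rw [hHc]; omega) (by rw [hHc]; exact h))
    rwa [hHc] at this
  obtain ⟨J, hJ⟩ : ∃ J : ℕ, J = (m - 1) / 3 := ⟨_, rfl⟩
  have hJ2 : 2 ≤ J := by omega
  have hJm : 3 * J + 1 ≤ m := by omega
  obtain ⟨b, hb⟩ : ∃ b : ℝ, b = (B.card : ℝ) := ⟨_, rfl⟩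
  obtain ⟨n, hn⟩ : ∃ n : ℝ, n = (Nat.card G : ℝ) := ⟨_, rfl⟩
  obtain ⟨F, hF⟩ : ∃ F : ℝ, F = (GL.FF B : ℝ) := ⟨_, rfl⟩
  obtain ⟨F', hF'⟩ : ∃ F' : ℝ, F' = (GL.FF B' : ℝ) := ⟨_, rfl⟩
  obtain ⟨x, hx⟩ : ∃ x : ℝ, x = ((E * K' : ℕ) : ℝ) := ⟨_, rfl⟩
  have hbR : 0 < b := by rw [hb]; exact_mod_cast hb0
  have hbnR : b < n := by rw [hb, hn]; exact_mod_cast hbn
  have hβR : 20 * b ≤ 9 * n := by rw [hb, hn]; exact_mod_cast hβ
  have hnR : 0 < n := by linarith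
  have hx0 : 0 ≤ x := by rw [hx]; positivity
  have hxb : 6 * x < 5 * b := by rw [hx, hb]; exact_mod_cast h56
  have hw0 : (0 : ℝ) ≤ (w : ℝ) := by positivity
  have hcomb := ky_combine b n w F F' R hbR hbnR hw0 (by rw [hF, hF', hb]; exact hrem)
    (by rw [hF, hb, hn]; exact hfou)
  obtain ⟨f, hf⟩ : ∃ f, f = F / b ^ 2 := ⟨_, rfl⟩
  obtain ⟨ω, hω⟩ : ∃ ω, ω = (w : ℝ) / b := ⟨_, rfl⟩
  obtain ⟨t, ht⟩ : ∃ t, t = x / b := ⟨_, rfl⟩
  obtain ⟨β, hβd⟩ : ∃ β, β = b / n := ⟨_, rfl⟩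
  have hFf : F = f * b ^ 2 := by rw [hf]; field_simp
  have hwω : (w : ℝ) = ω * b := by rw [hω]; field_simp
  have hxt : x = t * b := by rw [ht]; field_simp
  have hbβ : b = β * n := by rw [hβd]; field_simp
  have g0 : 0 < β := by rw [hβd]; positivity
  have g1 : β ≤ 9 / 20 := by
    rw [hβd, div_le_iff₀ hnR]
    linarith
  have g2 : 0 ≤ ω := by rw [hω]; positivity
  have g3 : 0 ≤ t := by rw [ht]; positivity
  have g4 : t < 5 / 6 := by
    rw [ht, div_lt_iff₀ hbR]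
    linarith
  have hb2 : 0 < b ^ 2 := by positivity
  have g5 : -1 / 3 < f := by
    have h1 : -(b ^ 2) < 3 * F := by
      rw [hb, hF]
      have : -(B.card : ℤ) ^ 2 < 3 * GL.FF B := by linarith
      exact_mod_cast this
    rw [hf, lt_div_iff₀ hb2]
    linarith
  have g6 : 1 / 2 ≤ t → (2 * t - 1) * (6 * t - 5) < f := by
    intro h
    rw [ht, le_div_iff₀ hbR] at h
    have h1 : B.card ≤ 2 * (E * K') := by
      have : (B.card : ℝ) ≤ 2 * ((E * K' : ℕ) : ℝ) := by rw [← hb, ← hx]; linarith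
      exact_mod_cast this
    have h2 : (2 * x - b) * (6 * x - 5 * b) < F := by
      rw [hx, hb, hF]
      exact_mod_cast l3 h1
    rw [hf, lt_div_iff₀ hb2]
    rw [hxt] at h2
    nlinarith
  have g7 : -4 / 5 < (m : ℝ) ^ 2 * β ^ 2 * f := by
    have h1 : -4 * n ^ 2 < 5 * (m : ℝ) ^ 2 * F := by
      rw [hn, hF]
      have h2 : (0 : ℤ) < (m : ℤ) ^ 2 := by positivity
      have : -4 * (Nat.card G : ℤ) ^ 2 < 5 * (m : ℤ) ^ 2 * GL.FF B := by nlinarith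
      exact_mod_cast this
    rw [hFf, hbβ] at h1
    have h3 : 0 < n ^ 2 := by positivity
    have h4 : 0 < n ^ 2 * (5 * (m : ℝ) ^ 2 * β ^ 2 * f + 4) := by nlinarith
    have h5 := (mul_pos_iff_of_pos_left h3).1 h4
    linarith
  have hH : ∀ c γ : ℝ, F' ≤ -c * (b - w) ^ 2 + γ * x ^ 2 →
      (1 - β) * (f + c * (1 - ω) ^ 2 - γ * t ^ 2 + 13 / 5 * ω ^ 2 + 26 / 5 * ω)
        ≤ 14 / 5 * ω * (1 - f) := by
    intro c γ h
    have h1 : F' / b ^ 2 ≤ -c * (1 - ω) ^ 2 + γ * t ^ 2 := by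
      rw [div_le_iff₀ hb2]
      rw [hwω, hxt] at h
      nlinarith
    rw [← hβd, ← hω, ← hf] at hcomb
    have h2 : 0 ≤ 1 - β := by linarith
    exact (mul_le_mul_of_nonneg_left (by linarith) h2).trans hcomb
  have hcore := no_bonus_core2 chi B' hB' h43 (K' : ℤ) (by positivity) hnb J hJ hJ2
    (B'.card : ℤ) (GL.FF B') rfl rfl
  have hB'c : ((B'.card : ℤ) : ℝ) = b - w := by
    rw [hb, ← hw]
    push_cast
    ring
  have hEJ : ((3 * (J : ℝ) + 1) * K') ^ 2 ≤ x ^ 2 := by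
    have h1 : (3 * J + 1) * K' ≤ E * K' := Nat.mul_le_mul_right _ (by omega)
    have h2 : (3 * (J : ℝ) + 1) * K' ≤ x := by
      rw [hx]
      exact_mod_cast h1
    exact pow_le_pow_left₀ (by positivity) h2 2
  have hmf : ∀ q : ℝ, 0 ≤ q → q ≤ (m : ℝ) ^ 2 → -4 / 5 < q * β ^ 2 * f := by
    intro q hq0 hq
    rcases le_total 0 f with h | h
    · have : 0 ≤ q * β ^ 2 * f := by positivity
      linarith
    · have h1 : 0 ≤ ((m : ℝ) ^ 2 - q) * (β ^ 2 * (-f)) :=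
        mul_nonneg (by linarith) (mul_nonneg (by positivity) (by linarith))
      have h2 : q * β ^ 2 * f = (m : ℝ) ^ 2 * β ^ 2 * f + ((m : ℝ) ^ 2 - q) * (β ^ 2 * (-f)) := by
        ring
      linarith
  have hm7 : (49 : ℝ) ≤ (m : ℝ) ^ 2 := by
    calc (49 : ℝ) = 7 ^ 2 := by norm_num
      _ ≤ _ := pow_le_pow_left₀ (by norm_num) (by exact_mod_cast hm) 2
  rcases hcore with ⟨hJe, h⟩ | ⟨hJe, h⟩ | ⟨hJ3, h⟩ | ⟨hJ3, h⟩
  · have h' : 1000 * F' ≤ -555 * (b - w) ^ 2 + 19000 * (K' : ℝ) ^ 2 := by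
      rw [hF', ← hB'c]
      exact_mod_cast h
    rw [hJe] at hEJ
    push_cast at hEJ
    exact kx_A β f ω t g0 g1 g2 g3 g4 g5 g6 (hmf 49 (by norm_num) hm7) (hH _ _ (by linarith))
  · have h' : 100 * F' ≤ -45 * (b - w) ^ 2 + 900 * (K' : ℝ) ^ 2 := by
      rw [hF', ← hB'c]
      exact_mod_cast h
    rw [hJe] at hEJ
    push_cast at hEJ
    exact kx_B β f ω t g0 g1 g2 g3 g4 g5 g6 (hmf 49 (by norm_num) hm7) (hH _ _ (by linarith))
  · have h' : 10000 * F' ≤ -5115 * (b - w) ^ 2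
        + 10000 * (3 * (J : ℝ) ^ 2 + 3 * J + 1) * (K' : ℝ) ^ 2 := by
      rw [hF', ← hB'c]
      exact_mod_cast h
    have hm10 : (100 : ℝ) ≤ (m : ℝ) ^ 2 := by
      calc (100 : ℝ) = 10 ^ 2 := by norm_num
        _ ≤ _ := pow_le_pow_left₀ (by norm_num) (by exact_mod_cast (by omega : 10 ≤ m)) 2
    have hJ3R : (3 : ℝ) ≤ J := by exact_mod_cast hJ3
    have hq := ky_q1 (J : ℝ) hJ3R
    have hq2 := mul_le_mul_of_nonneg_right hq (sq_nonneg (K' : ℝ))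
    exact kx_C β f ω t g0 g1 g2 g3 g4 g5 g6 (hmf 100 (by norm_num) hm10) (hH _ _ (by linarith))
  · have h' : 10000 * F' ≤ -4195 * (b - w) ^ 2
        + 10000 * (4 * (J : ℝ) + 1) * (K' : ℝ) ^ 2 := by
      rw [hF', ← hB'c]
      exact_mod_cast h
    have hm10 : (100 : ℝ) ≤ (m : ℝ) ^ 2 := by
      calc (100 : ℝ) = 10 ^ 2 := by norm_num
        _ ≤ _ := pow_le_pow_left₀ (by norm_num) (by exact_mod_cast (by omega : 10 ≤ m)) 2
    have hJ3R : (3 : ℝ) ≤ J := by exact_mod_cast hJ3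
    have hq := ky_q2 (J : ℝ) hJ3R
    have hq2 := mul_le_mul_of_nonneg_right hq (sq_nonneg (K' : ℝ))
    exact kx_D β f ω t g0 g1 g2 g3 g4 g5 g6 (hmf 100 (by norm_num) hm10) (hH _ _ (by linarith))

end Pool.Agent.KE
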