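import Mathlib
import Pool.Agent.Lib_helper59.KE2.KY

/-!
# `κ ≥ 0`: the removal of the outer part does not increase `F`
-/

set_option autoImplicit false

namespace Pool.Agent.KE

open Finset Pool.Agent.GL Pool.Agent.NEG

theorem kz_gen (m b n : ℝ) (hm : 14 ≤ m) (hb : 0 < b) (hn : 0 < n) (h1 : 11 * n < 39 * b)
    (h2 : 20 * b ≤ 9 * n) : 28 * n ^ 3 ≤ 5 * m ^ 2 * b ^ 2 * (6 * n - 13 * b) := by
  have h3 : 28 * n ^ 3 ≤ 980 * (b ^ 2 * (6 * n - 13 * b)) := by
    nlinarith [mul_nonneg (mul_nonneg (by linarith : 0 ≤ 39 * b - 11 * n) (by linarith : 0 ≤ 9 * n - 20 * b)) hn.le,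
      mul_nonneg (mul_nonneg (by linarith : 0 ≤ 39 * b - 11 * n) (by linarith : 0 ≤ 9 * n - 20 * b)) hb.le,
      mul_pos (mul_pos hn hn) hn, mul_pos (mul_pos hn hn) hb, mul_pos (mul_pos hn hb) hb]
  have h4 : 196 ≤ m ^ 2 := by nlinarith
  have h5 : 0 ≤ b ^ 2 * (6 * n - 13 * b) := mul_nonneg (by positivity) (by linarith)
  nlinarith [mul_le_mul_of_nonneg_right h4 h5]

theorem kz_gen8 (m b n : ℝ) (hm : 8 ≤ m) (hb : 0 < b) (hn : 0 < n) (h1 : 11 * n < 39 * b)
    (h2 : 100 * b ≤ 42 * n) : 28 * n ^ 3 ≤ 5 * m ^ 2 * b ^ 2 * (6 * n - 13 * b) := by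
  have h3 : 28 * n ^ 3 ≤ 320 * (b ^ 2 * (6 * n - 13 * b)) := by
    nlinarith [mul_nonneg (mul_nonneg (by linarith : 0 ≤ 39 * b - 11 * n) (by linarith : 0 ≤ 42 * n - 100 * b)) hn.le,
      mul_nonneg (mul_nonneg (by linarith : 0 ≤ 39 * b - 11 * n) (by linarith : 0 ≤ 42 * n - 100 * b)) hb.le,
      mul_pos (mul_pos hn hn) hn, mul_pos (mul_pos hn hn) hb, mul_pos (mul_pos hn hb) hb]
  have h4 : 64 ≤ m ^ 2 := by nlinarith
  have h5 : 0 ≤ b ^ 2 * (6 * n - 13 * b) := mul_nonneg (by positivity) (by linarith)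
  nlinarith [mul_le_mul_of_nonneg_right h4 h5]

theorem kz_odd {m : ℕ} (hm : m = 7 ∨ m = 9 ∨ m = 11 ∨ m = 13) (k s b : ℤ) (j : ℕ) (hk : 0 < k)
    (hs0 : 0 ≤ s) (hs : s ≤ k) (hb : b = (2 * j + 1) * k + s ∨ b + s = (2 * j + 1) * k)
    (g1 : 11 * (m * k) < 39 * b) (g2 : 20 * b ≤ 9 * (m * k)) :
    b ^ 2 * (13 * b - 6 * (m * k)) ≤ 7 * (m * k) * ((k - s) * (k - 5 * s)) := by
  have hj : j ≤ 2 := by
    by_contra hh
    push Not at hh
    have h3 : (7 : ℤ) * k ≤ (2 * j + 1) * k := by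
      have : (3 : ℤ) ≤ j := by exact_mod_cast hh
      nlinarith
    have h5 : (m : ℤ) ≤ 13 := by
      have : m ≤ 13 := by omega
      exact_mod_cast this
    have h6 : (m : ℤ) * k ≤ 13 * k := mul_le_mul_of_nonneg_right h5 hk.le
    rcases hb with hb | hb <;> nlinarith
  have hsk : 0 ≤ k - s := by linarith
  have p1 : 0 ≤ k * s * (k - s) := mul_nonneg (mul_nonneg hk.le hs0) hsk
  have p2 : 0 ≤ s * s * (k - s) := mul_nonneg (mul_nonneg hs0 hs0) hsk
  have p3 : 0 ≤ k * (k - s) * (k - s) := mul_nonneg (mul_nonneg hk.le hsk) hsk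
  have p4 : 0 < k * k * k := mul_pos (mul_pos hk hk) hk
  have p5 : 0 ≤ s * s * s := mul_nonneg (mul_nonneg hs0 hs0) hs0
  have p6 : 0 ≤ (k - s) * (k - s) * (k - s) := mul_nonneg (mul_nonneg hsk hsk) hsk
  have p7 : 0 ≤ k * k * s := mul_nonneg (mul_nonneg hk.le hk.le) hs0
  interval_cases j <;> rcases hm with rfl | rfl | rfl | rfl <;> rcases hb with hb | hb <;>
    push_cast at * <;> try (exfalso; linarith)
  · -- m = 7, b = k + s
    have e : b = k + s := by linarith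
    rw [e] at g1 g2 ⊢
    nlinarith [mul_nonneg (mul_nonneg hk.le hk.le) (by linarith : 0 ≤ 39 * (k + s) - 77 * k)]
  · have e : b = 3 * k + s := by linarith
    rw [e] at g1 g2 ⊢
    nlinarith [mul_nonneg (mul_nonneg hk.le hk.le) (by linarith : 0 ≤ 63 * k - 20 * (3 * k + s)),
      mul_nonneg (mul_nonneg hk.le hs0) (by linarith : 0 ≤ 63 * k - 20 * (3 * k + s)),
      mul_nonneg (mul_nonneg hs0 hs0) (by linarith : 0 ≤ 63 * k - 20 * (3 * k + s))]
  · have e : b = 3 * k - s := by linarith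
    rw [e] at g1 g2 ⊢
    nlinarith [mul_nonneg hk.le (sq_nonneg (k - 2 * s)), mul_nonneg hs0 (sq_nonneg (k - s))]
  · have e : b = 3 * k + s := by linarith
    rw [e] at g1 g2 ⊢
    nlinarith [mul_nonneg hk.le (sq_nonneg (k - 2 * s)), mul_nonneg hs0 (sq_nonneg (k - s))]
  · have e : b = 3 * k - s := by linarith
    rw [e] at g1 g2 ⊢
    nlinarith [mul_nonneg hk.le (sq_nonneg (k - 2 * s)), mul_nonneg hs0 (sq_nonneg (k - s))]
  · have e : b = 3 * k + s := by linarith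
    rw [e] at g1 g2 ⊢
    nlinarith [mul_nonneg hk.le (sq_nonneg (k - 2 * s)), mul_nonneg hs0 (sq_nonneg (k - s))]
  · have e : b = 3 * k + s := by linarith
    rw [e] at g1 g2 ⊢
    nlinarith [mul_nonneg hk.le (sq_nonneg (k - 2 * s)), mul_nonneg hs0 (sq_nonneg (k - s))]
  · have e : b = 5 * k - s := by linarith
    rw [e] at g1 g2 ⊢
    nlinarith [mul_nonneg (mul_nonneg hk.le hk.le) (by linarith : 0 ≤ 81 * k - 20 * (5 * k - s)),
      mul_nonneg (mul_nonneg hk.le hs0) (by linarith : 0 ≤ 81 * k - 20 * (5 * k - s)),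
      mul_nonneg (mul_nonneg hs0 hs0) (by linarith : 0 ≤ 81 * k - 20 * (5 * k - s))]
  · have e : b = 5 * k - s := by linarith
    rw [e] at g1 g2 ⊢
    nlinarith [mul_nonneg hk.le (sq_nonneg (k - 2 * s)), mul_nonneg hs0 (sq_nonneg (k - s)),
      mul_nonneg (mul_nonneg hk.le hk.le) (by linarith : 0 ≤ 99 * k - 20 * (5 * k - s))]
  · have e : b = 5 * k + s := by linarith
    rw [e] at g1 g2 ⊢
    nlinarith [mul_nonneg hk.le (sq_nonneg (k - 2 * s)), mul_nonneg hs0 (sq_nonneg (k - s)),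
      mul_nonneg (mul_nonneg hk.le hk.le) (by linarith : 0 ≤ 117 * k - 20 * (5 * k + s)),
      mul_nonneg (mul_nonneg hk.le hs0) (by linarith : 0 ≤ 117 * k - 20 * (5 * k + s)),
      mul_nonneg (mul_nonneg hs0 hs0) (by linarith : 0 ≤ 117 * k - 20 * (5 * k + s))]
  · have e : b = 5 * k - s := by linarith
    rw [e] at g1 g2 ⊢
    nlinarith [mul_nonneg hk.le (sq_nonneg (k - 2 * s)), mul_nonneg hs0 (sq_nonneg (k - s))]

/-- even order: a subgroup of index 2 minus a sum-free subset -/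
theorem kz_even {G : Type*} [AddCommGroup G] [Fintype G] [DecidableEq G] {m : ℕ} [NeZero m]
    (hm : m = 8 ∨ m = 10 ∨ m = 12) (chi : G →+ ZMod m) (hchi : Function.Surjective chi) {b : ℕ}
    (h1 : 42 * Nat.card G < 100 * b) (h2 : 20 * b ≤ 9 * Nat.card G) : ∃ v, W G b v ∧ 0 ≤ v := by
  classical
  have hd : 2 ∣ m := by omega
  set r : G →+ ZMod 2 := (ZMod.castHom hd (ZMod 2)).toAddMonoidHom.comp chi with hr
  have hrs : Function.Surjective r := by
    intro y
    obtain ⟨x, hx⟩ := hchi (y.val : ZMod m)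
    refine ⟨x, ?_⟩
    have : r x = ZMod.castHom hd (ZMod 2) (chi x) := rfl
    rw [this, hx, map_natCast, ZMod.natCast_zmod_val]
  obtain ⟨hc1, -⟩ := ky_ker (m := 2) r hrs
  obtain ⟨hc2, -⟩ := ky_ker chi hchi
  obtain ⟨g, hg⟩ := hchi 2
  -- the level 2
  set T : Finset G := univ.filter (fun x => chi x = 2) with hT
  have hTc : Nat.card chi.ker ≤ T.card := by
    have h3 : (univ.filter (fun x : G => x ∈ chi.ker)).card = Nat.card chi.ker := by
      rw [Nat.card_eq_fintype_card, Fintype.card_subtype]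
    rw [← h3]
    apply Finset.card_le_card_of_injOn (fun x => g + x)
    · intro x hx
      have hx' := (Finset.mem_filter.1 (Finset.mem_coe.1 hx)).2
      rw [AddMonoidHom.mem_ker] at hx'
      refine Finset.mem_coe.2 (Finset.mem_filter.2 ⟨Finset.mem_univ _, ?_⟩)
      rw [map_add, hg, hx', add_zero]
    · intro x _ y _ hxy
      exact add_left_cancel hxy
  have hk : Nat.card r.ker - b ≤ T.card := by
    refine le_trans ?_ hTc
    rcases hm with rfl | rfl | rfl <;> omega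
  obtain ⟨S, hST, hSc⟩ := Finset.exists_subset_card_eq hk
  have hbr : b ≤ Nat.card r.ker := by omega
  refine ⟨_, Or.inl ⟨r.ker, S, ?_, ?_, by omega, rfl⟩, sq_nonneg _⟩
  · intro x hx
    have hx2 := (Finset.mem_filter.1 (hST hx)).2
    rw [AddMonoidHom.mem_ker]
    have : r x = ZMod.castHom hd (ZMod 2) (chi x) := rfl
    rw [this, hx2]
    have : ((2 : ℕ) : ZMod 2) = 0 := ZMod.natCast_self 2
    rw [map_ofNat]
    exact_mod_cast this
  · intro x hx y hy hxy
    have hx2 := (Finset.mem_filter.1 (hST hx)).2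
    have hy2 := (Finset.mem_filter.1 (hST hy)).2
    have hxy2 := (Finset.mem_filter.1 (hST hxy)).2
    rw [map_add, hx2, hy2] at hxy2
    have h5 : (2 : ZMod m) = 0 := by
      have : (2 : ZMod m) + 2 = 2 + 0 := by rw [hxy2, add_zero]
      exact add_left_cancel this
    have h6 : ((2 : ℕ) : ZMod m) = 0 := by exact_mod_cast h5
    have h7 := (ZMod.natCast_eq_zero_iff 2 m).1 h6
    have := Nat.le_of_dvd (by norm_num) h7
    omega

/-- the Fourier bound: if `28 R < 15 b` then `7 n F < b² (13 b - 6 n)` -/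
theorem kz_fou (b n F R : ℝ) (hb : 0 < b) (hn : b < n)
    (hfou : n * (F + 3 * b ^ 2) ≤ 4 * b ^ 3 + 4 * R * (n * b - b ^ 2)) (hR : 28 * R < 15 * b) :
    7 * n * F < b ^ 2 * (13 * b - 6 * n) := by
  have h1 : 28 * R * (b * (n - b)) < 15 * b * (b * (n - b)) :=
    mul_lt_mul_of_pos_right hR (mul_pos hb (by linarith))
  nlinarith

/-- **`κ ≥ 0`** -/
theorem kappa_nonneg {G : Type*} [AddCommGroup G] [Fintype G] [DecidableEq G] {m : ℕ} [NeZero m]
    (hm : 7 ≤ m) (chi : G →+ ZMod m) (hchi : Function.Surjective chi) {b : ℕ} (hb0 : 0 < b)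
    (hβ : 20 * b ≤ 9 * Nat.card G) (F : ℤ) (hnot : ¬ Bd G b F) (R : ℝ)
    (hfou : (Nat.card G : ℝ) * (F + 3 * (b : ℝ) ^ 2) ≤
      4 * (b : ℝ) ^ 3 + 4 * R * (Nat.card G * b - (b : ℝ) ^ 2)) : 15 * (b : ℝ) ≤ 28 * R := by
  by_contra hR
  push Not at hR
  have hW : ∀ v, W G b v → v < F := by
    intro v hv
    by_contra hh
    exact hnot ⟨v, hv, not_lt.1 hh⟩
  have hbn : b < Nat.card G := by omega
  have hbR : (0 : ℝ) < b := by exact_mod_cast hb0
  have hbnR : (b : ℝ) < Nat.card G := by exact_mod_cast hbn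
  have key := kz_fou b (Nat.card G) F R hbR hbnR hfou hR
  have keyZ : 7 * (Nat.card G : ℤ) * F < (b : ℤ) ^ 2 * (13 * b - 6 * Nat.card G) := by
    exact_mod_cast key
  have hnZ : (0 : ℤ) < Nat.card G := by exact_mod_cast (by omega : 0 < Nat.card G)
  have hbZ : (0 : ℤ) < b := by exact_mod_cast hb0
  have hlow : ∀ v, W G b v → 7 * (Nat.card G : ℤ) * v < (b : ℤ) ^ 2 * (13 * b - 6 * Nat.card G) := by
    intro v hv
    have h1 := hW v hv
    have h2 : 7 * (Nat.card G : ℤ) * v ≤ 7 * (Nat.card G : ℤ) * F :=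
      mul_le_mul_of_nonneg_left h1.le (by positivity)
    linarith
  -- `b > 11 n / 39`
  have h39 : 11 * Nat.card G < 39 * b := by
    obtain ⟨v1, hv1, hv1'⟩ := third hbn
    have l1 := hlow v1 hv1
    by_contra hh
    push Not at hh
    have hh' : 39 * (b : ℤ) ≤ 11 * Nat.card G := by exact_mod_cast hh
    have e1 : 7 * (Nat.card G : ℤ) * (-(b : ℤ) ^ 2) ≤ 3 * (7 * (Nat.card G : ℤ) * v1) := by
      nlinarith
    nlinarith [mul_nonneg (sq_nonneg (b : ℤ)) (by linarith : 0 ≤ 11 * (Nat.card G : ℤ) - 39 * b)]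
  have h39R : 11 * (Nat.card G : ℝ) < 39 * b := by exact_mod_cast h39
  have hβR : 20 * (b : ℝ) ≤ 9 * Nat.card G := by exact_mod_cast hβ
  have hnR : (0 : ℝ) < Nat.card G := by linarith
  -- the generic witness
  obtain ⟨v2, hv2, hv2'⟩ := ky_wit chi hchi (b := b) (by omega)
  have l2 := hlow v2 hv2
  have gen : 5 * (m : ℝ) ^ 2 * (b : ℝ) ^ 2 * (6 * Nat.card G - 13 * b) <
      28 * (Nat.card G : ℝ) ^ 3 := by
    have l2R : 7 * (Nat.card G : ℝ) * v2 < (b : ℝ) ^ 2 * (13 * b - 6 * Nat.card G) := by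
      exact_mod_cast l2
    have v2R : -4 * (Nat.card G : ℝ) ^ 2 ≤ 5 * (m : ℝ) ^ 2 * v2 := by exact_mod_cast hv2'
    have hm2 : (0 : ℝ) < 5 * (m : ℝ) ^ 2 := by
      have : (0 : ℝ) < m := by exact_mod_cast (by omega : 0 < m)
      positivity
    have e1 := mul_lt_mul_of_pos_left l2R hm2
    have e2 := mul_le_mul_of_nonneg_left v2R (by positivity : (0 : ℝ) ≤ 7 * Nat.card G)
    nlinarith
  rcases Nat.lt_or_ge m 14 with h14 | h14
  swap
  · have := kz_gen (m : ℝ) b (Nat.card G) (by exact_mod_cast h14) hbR hnR h39R hβR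
    linarith
  rcases (by omega : (m = 7 ∨ m = 9 ∨ m = 11 ∨ m = 13) ∨ (m = 8 ∨ m = 10 ∨ m = 12)) with hodd | heven
  · -- the exact value of the kernel
    obtain ⟨hc1, hc2⟩ := ky_ker chi hchi
    have hal : Al b chi.ker := by
      by_contra hd
      have h3 := dead_ge hd hc2
      have h4 : 2 * m ≤ 3 * (m - m / 3) := by omega
      have h5 : 2 * m * Nat.card chi.ker ≤ 3 * (m - m / 3) * Nat.card chi.ker :=
        Nat.mul_le_mul_right _ h4
      rw [hc1] at hβ
      nlinarith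
    obtain ⟨j, s, hs, hbs, hv⟩ := al_exact hal
    have l3 := hlow _ hv
    have hk : (0 : ℤ) < Nat.card chi.ker := by exact_mod_cast Nat.card_pos
    have hcZ : (Nat.card G : ℤ) = m * Nat.card chi.ker := by exact_mod_cast hc1
    have := kz_odd hodd (Nat.card chi.ker : ℤ) (s : ℤ) (b : ℤ) j hk (by positivity)
      (by exact_mod_cast hs) hbs (by rw [← hcZ]; exact_mod_cast h39)
      (by rw [← hcZ]; exact_mod_cast hβ)
    rw [← hcZ] at this
    linarith
  · rcases le_or_gt (100 * b) (42 * Nat.card G) with h42 | h42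
    · have := kz_gen8 (m : ℝ) b (Nat.card G) (by exact_mod_cast (by omega : 8 ≤ m)) hbR hnR h39R
        (by exact_mod_cast h42)
      linarith
    · obtain ⟨v, hv, h0⟩ := kz_even heven chi hchi h42 hβ
      have l3 := hlow v hv
      have e1 : 0 ≤ 7 * (Nat.card G : ℤ) * v := by positivity
      have e2 : (13 : ℤ) * b < 6 * Nat.card G := by
        have : 20 * (b : ℤ) ≤ 9 * Nat.card G := by exact_mod_cast hβ
        linarith
      have e3 : (b : ℤ) ^ 2 * (13 * b - 6 * Nat.card G) < 0 :=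
        mul_neg_of_pos_of_neg (by positivity) (by linarith)
      linarith

end Pool.Agent.KE
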