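import Mathlib
import Pool.Agent.Lib_helper59.KE2.KZ
import Pool.Agent.Lib_helper25.PR.GL2

/-!
# Case (a) of sets with outer elements: `7 |B'_0| ≤ 4 |B'|`
-/

set_option autoImplicit false

namespace Pool.Agent.KE

open Finset Pool.Agent.Lib_helper13.PL Pool.Agent.POS Pool.Agent.GL Pool.Agent.NEG

/-- a value `≥ F(B')` is enough (`κ ≥ 0`) -/
theorem le_of_kappa (b w F F' R : ℝ) (hw : 0 ≤ w) (hR : 15 * b ≤ 28 * R)
    (hrem : F ≤ F' - (56 / 5 * R - 6 * b) * w - 13 / 5 * w ^ 2) : F ≤ F' := by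
  have h1 : 0 ≤ (56 / 5 * R - 6 * b) * w := mul_nonneg (by linarith) hw
  nlinarith [sq_nonneg w]

/-- **case (a)**: `K0` is a dead subgroup of `ker chi` of maximal order (or everything is alive);
the conclusion is the bound, or `B'_0` is close to an alive subgroup -/
theorem case_a {G : Type*} [AddCommGroup G] [Fintype G] [DecidableEq G] {m : ℕ} [NeZero m]
    (hm : 7 ≤ m) (chi : G →+ ZMod m) (hchi : Function.Surjective chi) (B B' : Finset G) (w : ℕ)
    (hb0 : 0 < B.card) (hw : B'.card + w = B.card) (hB' : NoWrap chi B')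
    (h74 : 7 * (lev chi B' 0).card ≤ 4 * B'.card) (R : ℝ)
    (hrem : (GL.FF B : ℝ) ≤ GL.FF B' - (56 / 5 * R - 6 * B.card) * w - 13 / 5 * (w : ℝ) ^ 2)
    (hfou : (Nat.card G : ℝ) * (GL.FF B + 3 * (B.card : ℝ) ^ 2) ≤
      4 * (B.card : ℝ) ^ 3 + 4 * R * (Nat.card G * B.card - (B.card : ℝ) ^ 2))
    (hβ : 20 * B.card ≤ 9 * Nat.card G)
    (K0 : AddSubgroup G) (hK0L : ∀ x ∈ K0, chi x = 0) (hK0 : ¬ Al B.card K0)
    (hmax : ∀ H : AddSubgroup G, (∀ x ∈ H, chi x = 0) → ¬ Al B.card H → Nat.card H ≤ Nat.card K0)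
    (E : ℕ) (hE : m ≤ E) (H : AddSubgroup G) (hHc : Nat.card H = E * Nat.card K0)
    (h56 : 6 * (E * Nat.card K0) < 5 * B.card)
    (hdead : 4 * Nat.card K0 ≤ 3 * (lev chi B' 0).card ∨ 12 * (m * Nat.card K0) ≤ 10 * B'.card ∨
      (10 ≤ m ∧ 10 * (m * Nat.card K0) ≤ 9 * B'.card)) :
    Bd G B.card (GL.FF B) ∨
    ∃ (K : AddSubgroup G) (KK : Finset G), (∀ t ∈ K, chi t = 0) ∧ (∀ x, x ∈ KK ↔ x ∈ K) ∧
      Nat.card K0 < Nat.card K ∧ Al B.card K ∧
      4 * (((KK \ lev chi B' 0).card : ℤ) + ((lev chi B' 0 \ KK).card : ℤ)) < Nat.card K := by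
  classical
  by_cases hBd : Bd G B.card (GL.FF B)
  · exact Or.inl hBd
  have hal : ∀ K : AddSubgroup G, (∀ x ∈ K, chi x = 0) → Nat.card K0 < Nat.card K →
      Al B.card K := by
    intro K hK hlt
    by_contra hh
    exact absurd (hmax K hK hh) (by omega)
  have hkpos : 0 < Nat.card K0 := Nat.card_pos
  have hbn : B.card < Nat.card G := by omega
  -- the smallest order above the dead ones
  obtain ⟨h, hh1, hord, hval⟩ : ∃ h : ℕ, 1 ≤ h ∧ (∀ H : AddSubgroup G, (∀ t ∈ H, chi t = 0) →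
      Nat.card H ≤ Nat.card K0 ∨ h ≤ Nat.card H) ∧
      (5 * GL.FF B ≤ -4 * (h : ℤ) ^ 2 → Bd G B.card (GL.FF B)) := by
    by_cases hex : ∃ K : AddSubgroup G, (∀ x ∈ K, chi x = 0) ∧ Nat.card K0 < Nat.card K
    · obtain ⟨K1, hK1L, hK1, hmin⟩ : ∃ K : AddSubgroup G, (∀ x ∈ K, chi x = 0) ∧
          Nat.card K0 < Nat.card K ∧ ∀ H : AddSubgroup G, (∀ x ∈ H, chi x = 0) →
            Nat.card K0 < Nat.card H → Nat.card K ≤ Nat.card H := by
        obtain ⟨K2, hK2⟩ := hex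
        have hfin : Finite (AddSubgroup G) := inferInstance
        obtain ⟨K, hK, hmin⟩ := Set.exists_min_image
          {K : AddSubgroup G | (∀ x ∈ K, chi x = 0) ∧ Nat.card K0 < Nat.card K}
          (fun K => Nat.card K) (Set.toFinite _) ⟨K2, hK2⟩
        exact ⟨K, hK.1, hK.2, fun H hH1 hH2 => hmin H ⟨hH1, hH2⟩⟩
      refine ⟨Nat.card K1, Nat.card_pos, fun H hH => ?_, fun hF => bd_al (hal K1 hK1L hK1) hF⟩
      rcases le_or_gt (Nat.card H) (Nat.card K0) with h1 | h1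
      · exact Or.inl h1
      · exact Or.inr (hmin H hH h1)
    · push Not at hex
      refine ⟨Nat.card G, by omega, fun H hH => Or.inl (hex H hH), fun hF => bd_third hbn ?_⟩
      have h1 : (B.card : ℤ) ≤ Nat.card G := by exact_mod_cast hbn.le
      have h2 : (0 : ℤ) ≤ B.card := by positivity
      nlinarith
  have hle : GL.FF B ≤ GL.FF B' := by
    have h1 := kappa_nonneg hm chi hchi hb0 hβ (GL.FF B) hBd R hfou
    have h2 := le_of_kappa (B.card : ℝ) w (GL.FF B) (GL.FF B') R (by positivity) h1 hrem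
    exact_mod_cast h2
  rcases kstar_struct2 chi B' hB' h74 (Nat.card K0 : ℤ) (h : ℤ) (by exact_mod_cast hkpos)
    (by exact_mod_cast hh1)
    (by
      rcases hdead with h1 | h1 | ⟨h1, h2⟩
      · left; exact_mod_cast h1
      · right; left; exact_mod_cast h1
      · right; right; exact ⟨h1, by exact_mod_cast h2⟩)
    (fun H hH => by
      rcases hord H hH with h1 | h1
      · left; exact_mod_cast h1
      · right; exact_mod_cast h1) with h1 | h1 | ⟨K, KK, hK1, hK2, hK3, hK4, hK5⟩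
  · left
    refine outer_no_bonus hm chi hchi B B' w hw hB' ?_ R hrem hfou hβ (Nat.card K0) E hE H hHc
      h56 h1
    omega
  · left
    exact hval (by linarith)
  · right
    exact ⟨K, KK, hK1, hK2, by exact_mod_cast hK3, hal K hK1 (by exact_mod_cast hK3), hK5⟩

end Pool.Agent.KE
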